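import Pool.Agent.PPS10.Defs

set_option autoImplicit false

/-!
# PPS10/Basic (MP_6908e7_al, helper10): first properties of the functions `k_γ`
-/

namespace Pool.Agent.PPS10

open scoped Classical

variable {ι X Y : Type} [AddCommGroup X] [AddCommGroup Y] {P : RootPairing ι ℤ X Y}

theorem root_smul (w : P.weylGroup) (γ : ι) : P.root (w • γ) = (w : P.Aut) • P.root γ :=
  RootPairing.Equiv.root_indexEquiv_eq_smul P γ w.1

theorem root_smul_lin (w : P.weylGroup) {γ γ' κ : ι} {m : ℤ}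
    (h : P.root γ = P.root γ' + m • P.root κ) :
    P.root (w • γ) = P.root (w • γ') + m • P.root (w • κ) := by
  rw [root_smul, root_smul, root_smul, h, smul_add, smul_comm]

theorem pair_cw (w : P.weylGroup) (x : X) (y : Y) :
    P.toLinearMap x (cw P w y) = P.toLinearMap ((w⁻¹ : P.weylGroup) • x) y := by
  have h := RootPairing.Hom.weight_coweight_transpose_apply P P y ((w⁻¹ : P.weylGroup) : P.Aut).toHom
  have h2 := congrArg (fun f => f x) h
  have h3 : P.toLinearMap x (((w⁻¹ : P.weylGroup) : P.Aut).coweightMap y) =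
      P.toLinearMap (((w⁻¹ : P.weylGroup) : P.Aut).weightMap x) y := by
    simpa using h2.symm
  exact h3

theorem pair_root_cw (w : P.weylGroup) (γ : ι) (y : Y) :
    P.toLinearMap (P.root γ) (cw P w y) = P.toLinearMap (P.root (w⁻¹ • γ)) y := by
  rw [pair_cw, root_smul]
  rfl

theorem kf_mul (b : P.Base) (γ : ι) (x y : EW P) :
    kf b γ (x * y) = P.toLinearMap (P.root γ) x.tr + kf b (x.lin⁻¹ • γ) y := by
  simp only [kf, mul_tr, mul_lin, map_add, mul_inv_rev, mul_smul, pair_root_cw]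
  ring

theorem kf_one (b : P.Base) (γ : ι) : kf b γ 1 = -ng b γ := by
  simp [kf]

theorem kf_mul_sub (b : P.Base) (γ : ι) (x y z : EW P) :
    kf b γ (x * y) - kf b γ (x * z) = kf b (x.lin⁻¹ • γ) y - kf b (x.lin⁻¹ • γ) z := by
  rw [kf_mul, kf_mul]; ring

@[simp] theorem root_nrt (γ : ι) : P.root (nrt P γ) = -P.root γ := by
  simp [nrt]

@[simp] theorem nrt_nrt (γ : ι) : nrt P (nrt P γ) = γ := by
  apply P.root.injective
  rw [root_nrt, root_nrt, neg_neg]

theorem nrt_ne (γ : ι) : nrt P γ ≠ γ := by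
  intro h
  have h1 : P.root γ = -P.root γ := by rw [← root_nrt, h]
  have h2 : P.root γ = 0 := by
    have h3 : P.toLinearMap (P.root γ) (P.coroot γ) = P.toLinearMap (-P.root γ) (P.coroot γ) := by
      rw [← h1]
    have h4 : P.toLinearMap (P.root γ) (P.coroot γ) = 2 := by simp
    rw [map_neg, LinearMap.neg_apply, h4] at h3
    omega
  exact P.ne_zero γ h2

theorem smul_nrt (w : P.weylGroup) (γ : ι) : w • nrt P γ = nrt P (w • γ) := by
  apply P.root.injective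
  rw [root_nrt, root_smul, root_nrt, smul_neg, ← root_smul]

theorem isPos_nrt (b : P.Base) (γ : ι) : b.IsPos (nrt P γ) ↔ ¬ b.IsPos γ :=
  RootPairing.Base.IsPos.neg_iff_not b γ

theorem ng_nrt (b : P.Base) (γ : ι) : ng b (nrt P γ) = 1 - ng b γ := by
  unfold ng
  rw [isPos_nrt]
  by_cases h : b.IsPos γ <;> simp [h]

theorem ng_of_pos {b : P.Base} {γ : ι} (h : b.IsPos γ) : ng b γ = 0 := by simp [ng, h]

theorem ng_of_neg {b : P.Base} {γ : ι} (h : ¬ b.IsPos γ) : ng b γ = 1 := by simp [ng, h]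

theorem ng_cases (b : P.Base) (γ : ι) : (b.IsPos γ ∧ ng b γ = 0) ∨ (¬ b.IsPos γ ∧ ng b γ = 1) := by
  by_cases h : b.IsPos γ
  · exact Or.inl ⟨h, ng_of_pos h⟩
  · exact Or.inr ⟨h, ng_of_neg h⟩

theorem kf_nrt (b : P.Base) (γ : ι) (x : EW P) : kf b (nrt P γ) x = -kf b γ x - 1 := by
  simp only [kf, root_nrt, map_neg, LinearMap.neg_apply, smul_nrt, ng_nrt]
  ring

/-- `d_γ(x) = k_γ(x) - k_γ(1)`. -/
noncomputable def dd (b : P.Base) (γ : ι) (x : EW P) : ℤ := kf b γ x - kf b γ 1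

theorem dd_nrt (b : P.Base) (γ : ι) (x : EW P) : dd b (nrt P γ) x = -dd b γ x := by
  simp only [dd, kf_nrt]; ring

theorem kf_mul_sub_self (b : P.Base) (γ : ι) (x y : EW P) :
    kf b γ (x * y) - kf b γ x = dd b (x.lin⁻¹ • γ) y := by
  have := kf_mul_sub b γ x y 1
  rw [mul_one] at this
  exact this

theorem dd_one (b : P.Base) (γ : ι) : dd b γ 1 = 0 := by simp [dd]

theorem dd_mul (b : P.Base) (γ : ι) (x y : EW P) :
    dd b γ (x * y) = dd b γ x + dd b (x.lin⁻¹ • γ) y := by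
  rw [← kf_mul_sub_self]
  simp only [dd]; ring

theorem isPos_iff_height (b : P.Base) (γ : ι) : b.IsPos γ ↔ 0 < b.height γ := Iff.rfl

theorem kf_add_bound (b : P.Base) {γ β β' : ι} (h : P.root γ = P.root β + P.root β') (x : EW P) :
    kf b β x + kf b β' x ≤ kf b γ x ∧ kf b γ x ≤ kf b β x + kf b β' x + 1 := by
  have h1 : P.root (x.lin⁻¹ • γ) = P.root (x.lin⁻¹ • β) + P.root (x.lin⁻¹ • β') := by
    have := root_smul_lin x.lin⁻¹ (γ := γ) (γ' := β) (κ := β') (m := 1) (by rw [h, one_smul])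
    rwa [one_smul] at this
  have h2 := b.height_add h1
  simp only [kf, h, map_add, LinearMap.add_apply]
  rcases ng_cases b (x.lin⁻¹ • γ) with ⟨p1, e1⟩ | ⟨p1, e1⟩ <;>
  rcases ng_cases b (x.lin⁻¹ • β) with ⟨p2, e2⟩ | ⟨p2, e2⟩ <;>
  rcases ng_cases b (x.lin⁻¹ • β') with ⟨p3, e3⟩ | ⟨p3, e3⟩ <;>
  rw [e1, e2, e3] <;> rw [isPos_iff_height] at p1 p2 p3 <;>
  (constructor <;> omega)

/-- The key comparison: the relation `k_γ(A) < k_γ(E)` is stable under `γ' + m κ`. -/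
theorem kf_lt_add (b : P.Base) {γ γ' κ : ι} {m : ℤ} (hm : 1 ≤ m)
    (h : P.root γ = P.root γ' + m • P.root κ) {A E : EW P}
    (h1 : kf b γ' A < kf b γ' E) (h2 : kf b κ A < kf b κ E) : kf b γ A < kf b γ E := by
  have key : ∀ x : EW P, 0 ≤ kf b γ x - kf b γ' x - m * kf b κ x ∧
      kf b γ x - kf b γ' x - m * kf b κ x ≤ m := by
    intro x
    have g1 : P.root (x.lin⁻¹ • γ) = P.root (x.lin⁻¹ • γ') + m • P.root (x.lin⁻¹ • κ) :=
      root_smul_lin x.lin⁻¹ h
    have g2 := b.height_add_zsmul g1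
    have g3 : kf b γ x - kf b γ' x - m * kf b κ x =
        m * ng b (x.lin⁻¹ • κ) + ng b (x.lin⁻¹ • γ') - ng b (x.lin⁻¹ • γ) := by
      simp only [kf, h, map_add, map_zsmul, LinearMap.add_apply, LinearMap.smul_apply, smul_eq_mul]
      ring
    rw [g3]
    rw [smul_eq_mul] at g2
    rcases ng_cases b (x.lin⁻¹ • γ) with ⟨p1, e1⟩ | ⟨p1, e1⟩ <;>
    rcases ng_cases b (x.lin⁻¹ • γ') with ⟨p2, e2⟩ | ⟨p2, e2⟩ <;>
    rcases ng_cases b (x.lin⁻¹ • κ) with ⟨p3, e3⟩ | ⟨p3, e3⟩ <;>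
    rw [e1, e2, e3] <;> rw [isPos_iff_height] at p1 p2 p3 <;>
    (constructor <;> nlinarith)
  have kA := key A
  have kE := key E
  nlinarith [kA.1, kA.2, kE.1, kE.2]

end Pool.Agent.PPS10
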