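import Mathlib

set_option autoImplicit false

/-!
# PPS10/Defs (MP_6908e7_al, helper10): all definitions

The extended affine Weyl group of a root datum, its Iwahori-Hecke algebra, the spherical module, parity systems.

`P : RootPairing ι ℤ X Y` is a root datum with finite set of roots, `b` a base, `X` the weight lattice, `Y` the
coweight lattice. `EW P` is the extended affine Weyl group `Y ⋊ W_f`; its elements are `t_λ w`.

For a root `γ` and `x = t_λ w` put `k_γ(x) = ⟨γ, λ⟩ - [w⁻¹γ < 0]` (`kf b γ x`). The length is given by the formula of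
Iwahori and Matsumoto, `ℓ(x) = Σ_{γ > 0} |k_γ(x)|` (`len b x`).
-/

namespace Pool.Agent.PPS10

open scoped Classical LaurentPolynomial

variable {ι X Y : Type} [AddCommGroup X] [AddCommGroup Y]

/-- The action of the finite Weyl group on the coweight lattice, for which the pairing is invariant. -/
noncomputable def cw (P : RootPairing ι ℤ X Y) (w : P.weylGroup) : Y →ₗ[ℤ] Y :=
  ((w⁻¹ : P.weylGroup) : P.Aut).coweightMap

/-- The extended affine Weyl group `Y ⋊ W_f`. The element `⟨λ, w⟩` is `t_λ w`. -/
@[ext] structure EW (P : RootPairing ι ℤ X Y) where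
  /-- the translation part -/
  tr : Y
  /-- the linear part -/
  lin : P.weylGroup

variable {P : RootPairing ι ℤ X Y}

theorem cw_one (y : Y) : cw P 1 y = y := by
  simp [cw]

theorem cw_mul (v w : P.weylGroup) (y : Y) : cw P (v * w) y = cw P v (cw P w y) := by
  simp only [cw, mul_inv_rev]
  rfl

noncomputable instance : Group (EW P) where
  mul x y := ⟨x.tr + cw P x.lin y.tr, x.lin * y.lin⟩
  one := ⟨0, 1⟩
  inv x := ⟨-cw P x.lin⁻¹ x.tr, x.lin⁻¹⟩
  mul_assoc x y z := by
    apply EW.ext
    · change x.tr + cw P x.lin y.tr + cw P (x.lin * y.lin) z.tr =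
        x.tr + cw P x.lin (y.tr + cw P y.lin z.tr)
      rw [map_add, cw_mul, add_assoc]
    · exact mul_assoc _ _ _
  one_mul x := by
    apply EW.ext
    · change 0 + cw P 1 x.tr = x.tr
      rw [cw_one, zero_add]
    · exact one_mul _
  mul_one x := by
    apply EW.ext
    · change x.tr + cw P x.lin 0 = x.tr
      rw [map_zero, add_zero]
    · exact mul_one _
  inv_mul_cancel x := by
    apply EW.ext
    · change -cw P x.lin⁻¹ x.tr + cw P x.lin⁻¹ x.tr = 0
      rw [neg_add_cancel]
    · exact inv_mul_cancel _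

@[simp] theorem mul_tr (x y : EW P) : (x * y).tr = x.tr + cw P x.lin y.tr := rfl
@[simp] theorem mul_lin (x y : EW P) : (x * y).lin = x.lin * y.lin := rfl
@[simp] theorem one_tr : (1 : EW P).tr = 0 := rfl
@[simp] theorem one_lin : (1 : EW P).lin = 1 := rfl
@[simp] theorem inv_lin (x : EW P) : (x⁻¹).lin = x.lin⁻¹ := rfl

/-- `ng b γ` is `1` if the root `γ` is negative and `0` if it is positive. -/
noncomputable def ng (b : P.Base) (γ : ι) : ℤ := if b.IsPos γ then 0 else 1

/-- `k_γ(t_λ w) = ⟨γ, λ⟩ - [w⁻¹γ < 0]`. -/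
noncomputable def kf (b : P.Base) (γ : ι) (x : EW P) : ℤ :=
  P.toLinearMap (P.root γ) x.tr - ng b (x.lin⁻¹ • γ)

/-- The length function of the extended affine Weyl group. -/
noncomputable def len [Fintype ι] (b : P.Base) (x : EW P) : ℕ :=
  ∑ γ : ι, if b.IsPos γ then (kf b γ x).natAbs else 0

/-- The affine reflection `t_{n γ^∨} s_γ`. -/
noncomputable def affRefl (P : RootPairing ι ℤ X Y) (γ : ι) (n : ℤ) : EW P :=
  ⟨n • P.coroot γ, RootPairing.weylGroup.ofIdx P γ⟩

/-- The simple reflections of the extended affine Weyl group: the affine reflections of length one. -/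
def IsSimple [Fintype ι] (b : P.Base) (s : EW P) : Prop :=
  (∃ γ n, s = affRefl P γ n) ∧ len b s = 1

/-- The index of the root `-γ`. -/
noncomputable def nrt (P : RootPairing ι ℤ X Y) (γ : ι) : ι := P.reflectionPerm γ γ

/-- The number of positive roots. -/
noncomputable def npos [Fintype ι] (b : P.Base) : ℤ := ∑ δ : ι, if b.IsPos δ then 1 else 0

theorem exists_argmin {α : Type*} [Nonempty α] (f : α → ℕ) : ∃ a, ∀ a', f a ≤ f a' := by
  obtain ⟨a, ha⟩ := Nat.sInf_mem (Set.range_nonempty f)
  exact ⟨a, fun a' => by rw [ha]; exact Nat.sInf_le ⟨a', rfl⟩⟩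

/-- `w_λ`: the element `w` of the finite Weyl group for which `t_λ w` has minimal length. -/
noncomputable def wl [Fintype ι] (b : P.Base) (lam : Y) : P.weylGroup :=
  Classical.choose (exists_argmin fun w : P.weylGroup => len b ⟨lam, w⟩)

/-- The shortest element `t_λ w_λ` of the coset `t_λ W_f`. -/
noncomputable def xmin [Fintype ι] (b : P.Base) (lam : Y) : EW P := ⟨lam, wl b lam⟩

/-- The length of the shortest element of `t_λ W_f`; this is the dimension of the Iwahori orbit `S_λ` of `t^{-λ}` on the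
affine Grassmannian. -/
noncomputable def dimS [Fintype ι] (b : P.Base) (lam : Y) : ℕ := len b (xmin b lam)

/-- The element `w` of the finite Weyl group, as an element of the extended affine Weyl group. -/
def fin (w : P.weylGroup) : EW P := ⟨0, w⟩

/-- Antidominant coweights. -/
def Anti (b : P.Base) (nu : Y) : Prop := ∀ i ∈ b.support, P.toLinearMap (P.root i) nu ≤ 0

/-- `f` has no monomial `v^m` with `m < -n`, that is `f ∈ v^{-n} ℤ[v]`. -/
def Bd (n : ℤ) (f : ℤ[T;T⁻¹]) : Prop := ∀ m, m < -n → f.coeff m = 0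

/-- All coefficients are nonnegative. -/
def NN (f : ℤ[T;T⁻¹]) : Prop := ∀ m, 0 ≤ f.coeff m

/-- The Laurent polynomial `v⁻¹ - v`. -/
noncomputable def xi : ℤ[T;T⁻¹] := LaurentPolynomial.T (-1) - LaurentPolynomial.T 1

/-- The Iwahori-Hecke algebra of the extended affine Weyl group, over `ℤ[v, v⁻¹]`, with its standard basis `T_x`:
`T_x T_y = T_{xy}` if `ℓ(xy) = ℓ(x) + ℓ(y)`, and `T_s² = 1 + (v⁻¹ - v) T_s` for the simple reflections `s`. -/
structure HeckeAlg [Fintype ι] (b : P.Base) where
  /-- the underlying ring -/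
  H : Type
  [ring : Ring H]
  [alg : Algebra ℤ[T;T⁻¹] H]
  /-- the standard basis -/
  Ts : Module.Basis (EW P) ℤ[T;T⁻¹] H
  one_eq : Ts 1 = 1
  mul_len : ∀ x y, len b (x * y) = len b x + len b y → Ts x * Ts y = Ts (x * y)
  mul_sq : ∀ s, IsSimple b s → Ts s * Ts s = 1 + xi • Ts s

attribute [instance] HeckeAlg.ring HeckeAlg.alg

variable [Fintype ι] {b : P.Base}

/-- `C = Σ_u v^{N - ℓ(u)} T_u`, the sum over the finite Weyl group (which is finite); `N` is the number of positive
roots. -/
noncomputable def cW (A : HeckeAlg b) : A.H :=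
  ∑ᶠ u : P.weylGroup, (LaurentPolynomial.T (npos b - len b (fin u : EW P)) : ℤ[T;T⁻¹]) • A.Ts (fin u)

/-- The standard basis `T_{x_λ} C` of the spherical module, `x_λ = t_λ w_λ`. -/
noncomputable def mstd (A : HeckeAlg b) (lam : Y) : A.H := A.Ts (xmin b lam) * cW A

/-- The element `Σ_κ h(λ, κ) T_{x_κ} C` of the Hecke algebra. -/
noncomputable def ch (A : HeckeAlg b) (h : Y → Y →₀ ℤ[T;T⁻¹]) (lam : Y) : A.H :=
  (h lam).sum fun kap a => a • mstd A kap

/-- A parity system: the properties of the characters of the indecomposable parity sheaves `E(S_λ)` on the affine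
Grassmannian (with coefficients in one field) which are used. The orbit `S_λ` is the Iwahori orbit of `t^{-λ}`, its
dimension is `dimS b λ`, and `h λ κ = Σ_i rank H^{-dim S_κ - i}(E(S_λ)|_{S_κ}) v^i`.
* `nonneg`, `diag`, `supp`: these are ranks, `E(S_λ)` is normalised on `S_λ` and supported on its closure.
* `constr`: for antidominant `ν` the closure of `S_ν` is the closure of a `G(O)`-orbit and `E(S_ν)` is
  `G(O)`-constructible: the ranks of the stalks on `S_κ` and `S_{wκ}` agree.
* `conv`: the convolution, on the affine flag variety, of the pullbacks of `E(S_λ)` and `E(S_ν)` is a direct sum of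
  shifts of pullbacks of sheaves `E(S_κ)`. The character of the pullback of `E(S_λ)` is
  `ch λ = Σ_κ h λ κ T_{x_κ} C`. -/
structure ParitySystem (A : HeckeAlg b) where
  /-- `h lam kap` is the graded rank of the stalk of `E(S_lam)` on the orbit `S_kap`. -/
  h : Y → Y →₀ ℤ[T;T⁻¹]
  nonneg : ∀ lam kap, NN (h lam kap)
  diag : ∀ lam, h lam lam = 1
  supp : ∀ lam kap, h lam kap ≠ 0 → kap = lam ∨ dimS b kap < dimS b lam
  constr : ∀ nu, Anti b nu → ∀ (w : P.weylGroup) (kap : Y),
    LaurentPolynomial.T (dimS b (cw P w kap)) * h nu (cw P w kap) =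
      LaurentPolynomial.T (dimS b kap) * h nu kap
  conv : ∀ lam nu, Anti b nu → ∃ d : Y →₀ ℤ[T;T⁻¹], (∀ kap, NN (d kap)) ∧
    ch A h lam * ch A h nu = d.sum fun kap a => a • ch A h kap

/-- `E(S_lam)` is perverse: no `h lam kap` has a negative power of `v`. -/
def ParitySystem.IsPerverse {A : HeckeAlg b} (E : ParitySystem A) (lam : Y) : Prop :=
  ∀ kap, Bd 0 (E.h lam kap)

end Pool.Agent.PPS10
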