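import Pool.Agent.PPS10.Simple

set_option autoImplicit false

/-!
# PPS10/Descent (MP_6908e7_al, helper10): the simple reflections, and existence of descents
-/

namespace Pool.Agent.PPS10

open scoped Classical

variable {ι X Y : Type} [Fintype ι] [AddCommGroup X] [AddCommGroup Y] {P : RootPairing ι ℤ X Y}

theorem simple_props {b : P.Base} {s : EW P} (hs : IsSimple b s) {κ : ι} (h : dd b κ s = 1) :
    (∀ γ, γ ≠ κ → γ ≠ nrt P κ → dd b γ s = 0) ∧
      (∀ γ, s.lin • γ = P.reflectionPerm κ γ) ∧ s * s = 1 := by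
  obtain ⟨κ', h1, h2, h3, h4⟩ := simple_data hs
  have e : κ = κ' := by
    by_contra hne
    by_cases e2 : κ = nrt P κ'
    · rw [e2, dd_nrt, h1] at h
      omega
    · rw [h2 κ hne e2] at h
      omega
  subst e
  exact ⟨h2, h3, h4⟩

omit [Fintype ι] in
private theorem pairingIn_eq (i j : ι) : P.pairingIn ℤ i j = P.pairing i j := by
  have := P.algebraMap_pairingIn ℤ i j
  simpa using this

/-- The finite simple reflections. -/
theorem simple_finite [P.IsReduced] (b : P.Base) {i : ι} (hi : i ∈ b.support) :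
    IsSimple b (affRefl P i 0) ∧ dd b (nrt P i) (affRefl P i 0) = 1 := by
  have hpos : b.IsPos i := RootPairing.Base.isPos_of_mem_support hi
  have hself : kf b i (affRefl P i 0) = -1 := by
    rw [kf_affRefl, refl_self, ng_nrt, ng_of_pos hpos]; simp
  refine ⟨⟨⟨i, 0, rfl⟩, ?_⟩, ?_⟩
  · rw [len, Finset.sum_eq_single i]
    · rw [if_pos hpos, hself]; rfl
    · intro β _ hne
      by_cases hβ : b.IsPos β
      · rw [if_pos hβ, kf_affRefl, ng_of_pos (RootPairing.Base.IsPos.reflectionPerm hβ hi hne)]
        simp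
      · rw [if_neg hβ]
    · intro h; exact absurd (Finset.mem_univ _) h
  · rw [dd_nrt, dd, hself, kf_one, ng_of_pos hpos]; simp

/-- The affine simple reflections. -/
theorem simple_max [P.IsReduced] (b : P.Base) {γ : ι} (hγ : b.IsPos γ)
    (hmax : ∀ β, b.IsPos β → P.root γ + P.root β ∉ Set.range P.root) :
    IsSimple b (affRefl P γ 1) ∧ dd b γ (affRefl P γ 1) = 1 := by
  have hself : kf b γ (affRefl P γ 1) = 1 := by
    rw [kf_affRefl, refl_self, ng_nrt, ng_of_pos hγ]; simp
  have hsub : ∀ β, b.IsPos β → β ≠ γ → 0 < P.pairing β γ → b.height β < b.height γ := by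
    intro β hβ hne hp
    obtain ⟨δ, hδ⟩ := P.root_sub_root_mem_of_pairingIn_pos (i := β) (j := γ)
      (by rw [pairingIn_eq]; exact hp) hne
    have h1 := b.height_sub hδ
    by_contra hc
    have hδpos : b.IsPos δ := by
      rw [isPos_iff_height]
      have := b.height_ne_zero δ
      omega
    exact hmax δ hδpos ⟨β, by rw [hδ]; abel⟩
  have hrest : ∀ β, b.IsPos β → β ≠ γ → kf b β (affRefl P γ 1) = 0 := by
    intro β hβ hne
    have hroot := root_refl (P := P) γ β
    have hht := b.height_add_zsmul hroot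
    rw [smul_eq_mul] at hht
    rw [kf_affRefl, one_mul]
    have hβ' : 0 < b.height β := hβ
    have hγ' : 0 < b.height γ := hγ
    have m0 : 0 ≤ P.pairing β γ := by
      by_contra hc
      have hne' : P.root β ≠ -P.root γ := by
        intro h
        rw [← root_nrt] at h
        have h2 := P.root.injective h
        rw [h2, isPos_nrt] at hβ
        exact hβ hγ
      obtain ⟨δ, hδ⟩ := P.root_add_root_mem_of_pairingIn_neg (i := β) (j := γ)
        (by rw [pairingIn_eq]; omega) hne'
      exact hmax β hβ ⟨δ, by rw [hδ]; abel⟩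
    rcases Nat.lt_or_ge 1 (P.pairing β γ).toNat with hm | hm
    · exfalso
      have hm2 : 2 ≤ P.pairing β γ := by omega
      have h1 := hsub β hβ hne (by omega)
      set β' := nrt P (P.reflectionPerm γ β) with hβ'def
      have hht' : b.height β' = P.pairing β γ * b.height γ - b.height β := by
        have := b.height_reflectionPerm_self (P.reflectionPerm γ β)
        change b.height β' = _ at this
        rw [this, hht]; ring
      have hpos' : b.IsPos β' := by
        rw [isPos_iff_height, hht']
        nlinarith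
      have hne' : β' ≠ γ := by
        intro h
        rw [h] at hht'
        nlinarith
      have hp' : P.pairing β' γ = P.pairing β γ := by
        have e1 : P.pairing β' γ = P.toLinearMap (P.root β') (P.coroot γ) := rfl
        have e2 : P.toLinearMap (P.root β) (P.coroot γ) = P.pairing β γ := rfl
        have e3 : P.toLinearMap (P.root γ) (P.coroot γ) = 2 := by simp
        rw [e1, hβ'def, root_nrt, hroot, map_neg, map_add, map_zsmul, LinearMap.neg_apply,
          LinearMap.add_apply, LinearMap.smul_apply, e2, e3, smul_eq_mul]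
        ring
      have h2 := hsub β' hpos' hne' (by omega)
      nlinarith
    · have hm' : P.pairing β γ = 0 ∨ P.pairing β γ = 1 := by omega
      rcases hm' with hm' | hm'
      · rw [hm'] at hroot ⊢
        rw [neg_zero, zero_smul, add_zero] at hroot
        rw [P.root.injective hroot, ng_of_pos hβ]; rfl
      · rw [hm'] at hroot ⊢
        rw [ng_of_neg]
        · rfl
        · intro hpos
          exact hmax _ hpos ⟨β, by rw [hroot]; simp⟩
  refine ⟨⟨⟨γ, 1, rfl⟩, ?_⟩, ?_⟩
  · rw [len, Finset.sum_eq_single γ]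
    · rw [if_pos hγ, hself]; rfl
    · intro β _ hne
      by_cases hβ : b.IsPos β
      · rw [if_pos hβ, hrest β hβ hne]; rfl
      · rw [if_neg hβ]
    · intro h; exact absurd (Finset.mem_univ _) h
  · rw [dd, hself, kf_one, ng_of_pos hγ]; simp

theorem descent_index [P.IsReduced] (b : P.Base) {y : EW P} (hy : 0 < len b y) :
    (∃ i ∈ b.support, 0 < dd b (nrt P i) y) ∨
    (∃ γ, b.IsPos γ ∧ (∀ β, b.IsPos β → P.root γ + P.root β ∉ Set.range P.root) ∧
      0 < dd b γ y) := by
  obtain ⟨H, hH⟩ : ∃ H : ℤ, ∀ γ, b.height γ < H := by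
    refine ⟨1 + ∑ γ : ι, |b.height γ|, fun γ => ?_⟩
    have h1 : |b.height γ| ≤ ∑ γ : ι, |b.height γ| :=
      Finset.single_le_sum (f := fun γ => |b.height γ|) (fun _ _ => abs_nonneg _) (Finset.mem_univ γ)
    have h2 := le_abs_self (b.height γ)
    omega
  let M : ι → ℤ := fun γ => if b.IsPos γ then H - b.height γ else -b.height γ
  obtain ⟨γ0, hγ0⟩ := exists_dd_pos hy
  obtain ⟨γ, hγ, hmin⟩ := Finset.exists_min_image (Finset.univ.filter fun γ => 0 < dd b γ y) M
    ⟨γ0, by simpa using hγ0⟩
  have hγ1 : 0 < dd b γ y := by simpa using hγ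
  have hmin' : ∀ δ, M δ < M γ → dd b δ y ≤ 0 := by
    intro δ hδ
    by_contra hc
    have := hmin δ (by simpa using hc)
    omega
  by_cases hp : b.IsPos γ
  · right
    refine ⟨γ, hp, ?_, hγ1⟩
    rintro β hβ ⟨δ, hδ⟩
    have hht := b.height_add hδ
    have hβ' : 0 < b.height β := hβ
    have hp' : 0 < b.height γ := hp
    have hδpos : b.IsPos δ := by rw [isPos_iff_height]; omega
    have hnβ : ¬ b.IsPos (nrt P β) := by rw [isPos_nrt]; exact not_not.mpr hβ
    have hnht : b.height (nrt P β) = -b.height β := b.height_reflectionPerm_self β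
    have hr : P.root γ = P.root δ + P.root (nrt P β) := by rw [hδ, root_nrt]; abel
    have b1 := hmin' δ (by
      have := hH δ
      simp only [M, if_pos hp, if_pos hδpos]; omega)
    have b2 := hmin' (nrt P β) (by
      have := hH δ
      simp only [M, if_pos hp, if_neg hnβ, hnht]; omega)
    have b3 := (kf_add_bound b hr y).2
    simp only [dd, kf_one, ng_of_pos hp, ng_of_pos hδpos, ng_of_neg hnβ] at b1 b2 hγ1
    omega
  · left
    set β := nrt P γ with hβdef
    have hβγ : nrt P β = γ := nrt_nrt γ
    have hβ : b.IsPos β := by rw [hβdef, isPos_nrt]; exact hp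
    by_cases hs : β ∈ b.support
    · exact ⟨β, hs, by rw [hβγ]; exact hγ1⟩
    · exfalso
      obtain ⟨j, hj, hj'⟩ := hβ.exists_mem_support_pos_pairingIn
      rw [P.zero_lt_pairingIn_iff'] at hj'
      have hne : β ≠ j := fun h => hs (by rw [h]; exact hj)
      obtain ⟨δ, hδ⟩ := P.root_sub_root_mem_of_pairingIn_pos hj' hne
      have hδpos : b.IsPos δ := hβ.sub hj hδ
      have hjpos : b.IsPos j := RootPairing.Base.isPos_of_mem_support hj
      have hht := b.height_sub hδ
      have h1 : b.height j = 1 := RootPairing.Base.height_one_of_mem_support hj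
      have hnht : ∀ ε, b.height (nrt P ε) = -b.height ε := fun ε => b.height_reflectionPerm_self ε
      have hγh : b.height γ = -b.height β := by rw [← hβγ, hnht]
      have hnj : ¬ b.IsPos (nrt P j) := by rw [isPos_nrt]; exact not_not.mpr hjpos
      have hnδ : ¬ b.IsPos (nrt P δ) := by rw [isPos_nrt]; exact not_not.mpr hδpos
      have hδ' : 0 < b.height δ := hδpos
      have hr : P.root γ = P.root (nrt P j) + P.root (nrt P δ) := by
        rw [root_nrt j, root_nrt δ, hδ, hβdef, root_nrt]; abel
      have b1 := hmin' (nrt P j) (by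
        simp only [M, if_neg hp, if_neg hnj, hnht, hγh]; omega)
      have b2 := hmin' (nrt P δ) (by
        simp only [M, if_neg hp, if_neg hnδ, hnht, hγh]; omega)
      have b3 := (kf_add_bound b hr y).2
      simp only [dd, kf_one, ng_of_neg hp, ng_of_neg hnj, ng_of_neg hnδ] at b1 b2 hγ1
      omega

theorem exists_left_descent [P.IsReduced] (b : P.Base) {y : EW P} (hy : 0 < len b y) :
    ∃ s κ, IsSimple b s ∧ dd b κ s = 1 ∧ 0 < dd b κ y ∧ len b (s * y) + 1 = len b y := by
  rcases descent_index b hy with ⟨i, hi, h⟩ | ⟨γ, hγ, hmax, h⟩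
  · obtain ⟨hs, h1⟩ := simple_finite b hi
    obtain ⟨h2, h3, h4⟩ := simple_props hs h1
    exact ⟨_, _, hs, h1, h, len_simple_mul_down hs h1 h2 h3 h4 h⟩
  · obtain ⟨hs, h1⟩ := simple_max b hγ hmax
    obtain ⟨h2, h3, h4⟩ := simple_props hs h1
    exact ⟨_, _, hs, h1, h, len_simple_mul_down hs h1 h2 h3 h4 h⟩

end Pool.Agent.PPS10
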