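import Pool.Agent.PPS10.Main

set_option autoImplicit false

/-!
# PPS10/Explicit (MP_6908e7_al, helper10): an explicit test set

`ω_i ∈ Y` are coweights with `⟨α_j, ω_i⟩ = m_i δ_{ij}`, `m_i > 0` (`m_i = 1` for groups of adjoint type). The coweights
`λ` with `-⟨w_λ α_i, λ⟩ < m_i + [w_λ α_i < 0]` for all `i`, and the `-ω_i`, decide.
-/

namespace Pool.Agent.PPS10

open scoped Classical LaurentPolynomial

variable {ι X Y : Type} [Fintype ι] [AddCommGroup X] [AddCommGroup Y] {P : RootPairing ι ℤ X Y}
  [P.IsReduced]

/-- `w_λ` is characterised by inequalities for the simple roots. -/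
theorem wl_of_simple (b : P.Base) (lam : Y) {w : P.weylGroup}
    (h : ∀ i ∈ b.support, P.toLinearMap (P.root (w • i)) lam ≤ -ng b (w • i)) :
    wl b lam = w := by
  have key : ∀ β, b.IsPos β → P.toLinearMap (P.root (w • β)) lam ≤ -ng b (w • β) := by
    intro β hβ
    refine hβ.induction_on_add
      (p := fun β => P.toLinearMap (P.root (w • β)) lam ≤ -ng b (w • β)) h ?_
    intro i j k hk hi hj
    have hj' := h j hj
    have hr := root_smul_lin w (γ := k) (γ' := i) (κ := j) (m := 1) (by rw [hk, one_smul])
    rw [one_smul] at hr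
    have h2 := ng_add_le b hr
    rw [hr, map_add, LinearMap.add_apply]
    omega
  refine (wl_unique b lam fun γ hγ => ?_).symm
  constructor
  · intro h
    have h1 : b.IsPos (nrt P (w⁻¹ • γ)) := by rwa [isPos_nrt]
    have h2 := key _ h1
    rw [smul_nrt, smul_inv_smul, root_nrt, map_neg, LinearMap.neg_apply, ng_nrt,
      ng_of_pos hγ] at h2
    omega
  · intro h hc
    have h2 := key _ hc
    rw [smul_inv_smul, ng_of_pos hγ] at h2
    omega

/-- The explicit test set. -/
theorem explicit_test {b : P.Base} {m : ι → ℤ} {om : ι → Y} (hm : ∀ i ∈ b.support, 0 < m i)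
    (hom : ∀ i ∈ b.support, ∀ j ∈ b.support,
      P.toLinearMap (P.root j) (om i) = if j = i then m i else 0)
    {A : HeckeAlg b} (E : ParitySystem A)
    (h1 : ∀ lam, (∀ i ∈ b.support, -P.toLinearMap (P.root (wl b lam • i)) lam <
      m i + ng b (wl b lam • i)) → E.IsPerverse lam)
    (h2 : ∀ i ∈ b.support, E.IsPerverse (-om i)) (lam : Y) : E.IsPerverse lam := by
  have hcanti : ∀ j ∈ b.support, Anti b (-om j) := by
    intro j hj i hi
    rw [map_neg, hom j hj i hi]
    have := hm j hj
    split <;> omega
  have hng : ∀ γ, 0 ≤ ng b γ := by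
    intro γ
    rcases ng_cases b γ with ⟨_, e⟩ | ⟨_, e⟩ <;> rw [e]
    norm_num
  generalize hn : ∑ i ∈ b.support, (-P.toLinearMap (P.root (wl b lam • i)) lam).toNat = n
  induction n using Nat.strong_induction_on generalizing lam with
  | _ n ih =>
    by_cases c : ∀ i ∈ b.support, -P.toLinearMap (P.root (wl b lam • i)) lam <
        m i + ng b (wl b lam • i)
    · exact h1 lam c
    · push Not at c
      obtain ⟨i, hi, hci⟩ := c
      set w := wl b lam with hw
      set lam' := lam + cw P w (om i) with hlam'
      have hval : ∀ j ∈ b.support, P.toLinearMap (P.root (w • j)) lam' =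
          P.toLinearMap (P.root (w • j)) lam + if j = i then m i else 0 := by
        intro j hj
        rw [hlam', map_add, pair_root_cw, inv_smul_smul, hom i hi j hj]
      have hineq : ∀ j ∈ b.support, P.toLinearMap (P.root (w • j)) lam ≤ -ng b (w • j) :=
        fun j hj => wl_ineq b lam (RootPairing.Base.isPos_of_mem_support hj)
      have hwl : wl b lam' = w := by
        refine wl_of_simple b lam' fun j hj => ?_
        rw [hval j hj]
        by_cases e : j = i
        · subst e
          rw [if_pos rfl]
          omega
        · rw [if_neg e, add_zero]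
          exact hineq j hj
      have e2 : lam = lam' + cw P (wl b lam') (-om i) := by
        rw [hwl, hlam', map_neg]; abel
      have hlt : ∑ j ∈ b.support, (-P.toLinearMap (P.root (wl b lam' • j)) lam').toNat < n := by
        rw [← hn, hwl]
        refine Finset.sum_lt_sum (fun j hj => ?_) ⟨i, hi, ?_⟩
        · rw [hval j hj]
          have := hm i hi
          split <;> omega
        · rw [hval i hi, if_pos rfl]
          have := hm i hi
          have := hng (w • i)
          omega
      have h3 := ih _ hlt lam' rfl
      rw [e2]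
      exact step E (hcanti i hi) h3 (h2 i hi)

end Pool.Agent.PPS10
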