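import Pool.Agent.PPS10.Descent

set_option autoImplicit false

/-!
# PPS10/FinW (MP_6908e7_al, helper10): the finite Weyl group

It is generated by the simple reflections, an element without inversions is trivial, it is finite, and it has an
element which sends every positive root to a negative one.
-/

namespace Pool.Agent.PPS10

open scoped Classical

variable {ι X Y : Type} [AddCommGroup X] [AddCommGroup Y] {P : RootPairing ι ℤ X Y}

theorem cw_coroot (w : P.weylGroup) (γ : ι) : cw P w (P.coroot γ) = P.coroot (w • γ) := by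
  have h := RootPairing.Hom.coroot_coweightMap_apply P P γ ((w⁻¹ : P.weylGroup) : P.Aut).toHom
  have e : ((w⁻¹ : P.weylGroup) : P.Aut).toHom.indexEquiv.symm γ = w • γ := by
    rw [Equiv.symm_apply_eq]
    change γ = w⁻¹ • w • γ
    rw [inv_smul_smul]
  rw [e] at h
  exact h

theorem conj_ofIdx (w : P.weylGroup) (γ : ι) :
    w * RootPairing.weylGroup.ofIdx P γ * w⁻¹ = RootPairing.weylGroup.ofIdx P (w • γ) := by
  apply Subtype.ext
  apply RootPairing.Equiv.weightHom_injective P
  ext x
  change (w : P.Aut) • (P.reflection γ) ((w⁻¹ : P.weylGroup) • x) = P.reflection (w • γ) x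
  rw [RootPairing.reflection_apply, RootPairing.reflection_apply, smul_sub]
  have e1 : (w : P.Aut) • ((w⁻¹ : P.weylGroup) • x) = x := smul_inv_smul w x
  have e2 : P.coroot' γ ((w⁻¹ : P.weylGroup) • x) = P.coroot' (w • γ) x := by
    change P.toLinearMap ((w⁻¹ : P.weylGroup) • x) (P.coroot γ) = P.toLinearMap x (P.coroot (w • γ))
    rw [← cw_coroot, pair_cw]
  have e3 : ∀ n : ℤ, (w : P.Aut) • (n • P.root γ) = n • P.root (w • γ) := by
    intro n
    rw [root_smul, smul_comm]
  rw [e1, e2, e3]

theorem ofIdx_nrt (γ : ι) :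
    RootPairing.weylGroup.ofIdx P (nrt P γ) = RootPairing.weylGroup.ofIdx P γ := by
  have h := conj_ofIdx (RootPairing.weylGroup.ofIdx P γ) γ
  rw [mul_inv_cancel_right, ofIdx_smul] at h
  exact h.symm

/-- The product of a list of reflections. -/
noncomputable def prodS (P : RootPairing ι ℤ X Y) (l : List ι) : P.weylGroup :=
  (l.map (RootPairing.weylGroup.ofIdx P)).prod

theorem prodS_nil : prodS P [] = 1 := rfl

theorem prodS_cons (i : ι) (l : List ι) :
    prodS P (i :: l) = RootPairing.weylGroup.ofIdx P i * prodS P l := by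
  simp [prodS]

theorem prodS_append (l l' : List ι) : prodS P (l ++ l') = prodS P l * prodS P l' := by
  simp [prodS]

theorem prodS_reverse (l : List ι) : prodS P l.reverse = (prodS P l)⁻¹ := by
  induction l with
  | nil => simp [prodS]
  | cons i l ih =>
    rw [List.reverse_cons, prodS_append, ih, prodS_cons, prodS_cons, prodS_nil, mul_one,
      mul_inv_rev, ofIdx_inv]

variable [Finite ι] [P.IsReduced]

/-- Words in the simple reflections. -/
def IsWord (b : P.Base) (w : P.weylGroup) : Prop :=
  ∃ l : List ι, (∀ i ∈ l, i ∈ b.support) ∧ prodS P l = w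

omit [Finite ι] [P.IsReduced] in
theorem isWord_mul {b : P.Base} {v w : P.weylGroup} (hv : IsWord b v) (hw : IsWord b w) :
    IsWord b (v * w) := by
  obtain ⟨l, h1, rfl⟩ := hv
  obtain ⟨l', h1', rfl⟩ := hw
  refine ⟨l ++ l', ?_, prodS_append l l'⟩
  intro i hi
  rcases List.mem_append.1 hi with h | h
  · exact h1 i h
  · exact h1' i h

omit [Finite ι] [P.IsReduced] in
theorem isWord_inv {b : P.Base} {v : P.weylGroup} (hv : IsWord b v) : IsWord b v⁻¹ := by
  obtain ⟨l, h1, rfl⟩ := hv
  exact ⟨l.reverse, fun i hi => h1 i (List.mem_reverse.1 hi), prodS_reverse l⟩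

theorem isWord_ofIdx (b : P.Base) (γ : ι) : IsWord b (RootPairing.weylGroup.ofIdx P γ) := by
  refine b.induction_reflect γ (p := fun γ => IsWord b (RootPairing.weylGroup.ofIdx P γ)) ?_ ?_ ?_
  · intro i hi
    change IsWord b (RootPairing.weylGroup.ofIdx P (nrt P i))
    rwa [ofIdx_nrt]
  · intro i hi
    exact ⟨[i], by simpa using hi, by simp [prodS]⟩
  · intro i j hi hj
    have h := conj_ofIdx (RootPairing.weylGroup.ofIdx P j) i
    rw [ofIdx_smul] at h
    rw [← h]
    have hj' : IsWord b (RootPairing.weylGroup.ofIdx P j) := ⟨[j], by simpa using hj, by simp [prodS]⟩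
    exact isWord_mul (isWord_mul hj' hi) (isWord_inv hj')

theorem isWord_all (b : P.Base) (w : P.weylGroup) : IsWord b w := by
  obtain ⟨g, hg⟩ := w
  induction hg using RootPairing.weylGroup.induction with
  | mem i => exact isWord_ofIdx b i
  | one => exact ⟨[], by simp, rfl⟩
  | mul x y hx hy h1 h2 => exact isWord_mul h1 h2

theorem exchange (b : P.Base) (l : List ι) (hl : ∀ i ∈ l, i ∈ b.support) {i : ι}
    (hi : i ∈ b.support) (h : ¬ b.IsPos (prodS P l • i)) :
    ∃ l' : List ι, (∀ i ∈ l', i ∈ b.support) ∧ l'.length + 1 = l.length ∧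
      prodS P l' = prodS P l * RootPairing.weylGroup.ofIdx P i := by
  induction l with
  | nil =>
    exfalso
    rw [prodS_nil, one_smul] at h
    exact h (RootPairing.Base.isPos_of_mem_support hi)
  | cons j l ih =>
    have hl' : ∀ i ∈ l, i ∈ b.support := fun i hi => hl i (List.mem_cons_of_mem _ hi)
    have hj : j ∈ b.support := hl j List.mem_cons_self
    by_cases c : b.IsPos (prodS P l • i)
    · have e : prodS P l • i = j := by
        by_contra hne
        apply h
        rw [prodS_cons, mul_smul, ofIdx_smul]
        exact c.reflectionPerm hj hne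
      refine ⟨l, hl', by simp, ?_⟩
      have h2 := conj_ofIdx (prodS P l) i
      rw [e] at h2
      rw [prodS_cons, ← h2]
      simp only [mul_assoc, inv_mul_cancel_left]
      rw [ofIdx_mul_self, mul_one]
    · obtain ⟨l', h1, h2, h3⟩ := ih hl' c
      refine ⟨j :: l', ?_, by simp [← h2], ?_⟩
      · intro k hk
        rcases List.mem_cons.1 hk with h | h
        · rw [h]; exact hj
        · exact h1 k h
      · rw [prodS_cons, h3, prodS_cons, mul_assoc]

theorem eq_one_of_pos (b : P.Base) {w : P.weylGroup} (h : ∀ i ∈ b.support, b.IsPos (w • i)) :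
    w = 1 := by
  obtain ⟨l, hl, rfl⟩ := isWord_all b w
  generalize hn : l.length = n
  induction n using Nat.strong_induction_on generalizing l with
  | _ n ih =>
    rcases List.eq_nil_or_concat l with rfl | ⟨l', i, rfl⟩
    · rfl
    · have hi : i ∈ b.support := hl i (by simp)
      have hl' : ∀ j ∈ l', j ∈ b.support := fun j hj => hl j (by simp [hj])
      have e : prodS P (l'.concat i) = prodS P l' * RootPairing.weylGroup.ofIdx P i := by
        rw [List.concat_eq_append, prodS_append, prodS_cons, prodS_nil, mul_one]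
      have hneg : ¬ b.IsPos (prodS P l' • i) := by
        have := h i hi
        rw [e, mul_smul, ofIdx_smul, refl_self, smul_nrt, isPos_nrt] at this
        exact this
      obtain ⟨l'', h1, h2, h3⟩ := exchange b l' hl' hi hneg
      have e2 : prodS P (l'.concat i) = prodS P l'' := by rw [e, h3]
      rw [e2] at h ⊢
      refine ih l''.length ?_ l'' h1 h rfl
      simp at hn
      omega

theorem smul_injective (b : P.Base) {v w : P.weylGroup} (h : ∀ γ : ι, v • γ = w • γ) : v = w := by
  have : w⁻¹ * v = 1 := eq_one_of_pos b fun i hi => by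
    rw [mul_smul, h, inv_smul_smul]
    exact RootPairing.Base.isPos_of_mem_support hi
  rw [inv_mul_eq_one] at this
  exact this.symm

theorem finite_weyl (b : P.Base) : Finite P.weylGroup := by
  refine Finite.of_injective (fun w : P.weylGroup => (fun γ : ι => w • γ)) ?_
  intro v w h
  exact smul_injective b (fun γ => congrFun h γ)

end Pool.Agent.PPS10
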