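import Pool.Agent.PPS10.Defs

set_option autoImplicit false

/-!
# PPS10/Laurent (MP_6908e7_al, helper10): order and positivity of Laurent polynomials
-/

namespace Pool.Agent.PPS10

open scoped LaurentPolynomial

theorem Bd.mono {n n' : ℤ} {f : ℤ[T;T⁻¹]} (h : Bd n f) (hn : n ≤ n') : Bd n' f :=
  fun m hm => h m (by omega)

theorem Bd.zero (n : ℤ) : Bd n 0 := fun m _ => by simp

theorem Bd.add {n : ℤ} {f g : ℤ[T;T⁻¹]} (hf : Bd n f) (hg : Bd n g) : Bd n (f + g) := by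
  intro m hm
  rw [AddMonoidAlgebra.coeff_add, Finsupp.add_apply, hf m hm, hg m hm, add_zero]

theorem Bd.neg {n : ℤ} {f : ℤ[T;T⁻¹]} (hf : Bd n f) : Bd n (-f) := by
  intro m hm
  have := hf m hm
  simp [this]

theorem Bd.sub {n : ℤ} {f g : ℤ[T;T⁻¹]} (hf : Bd n f) (hg : Bd n g) : Bd n (f - g) := by
  rw [sub_eq_add_neg]; exact hf.add hg.neg

theorem Bd.sum {α : Type*} {n : ℤ} (s : Finset α) (f : α → ℤ[T;T⁻¹]) (h : ∀ a ∈ s, Bd n (f a)) :
    Bd n (∑ a ∈ s, f a) :=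
  Finset.sum_induction f (Bd n) (fun _ _ => Bd.add) (Bd.zero n) h

theorem Bd.mul {n k : ℤ} {f g : ℤ[T;T⁻¹]} (hf : Bd n f) (hg : Bd k g) : Bd (n + k) (f * g) := by
  intro m hm
  rw [AddMonoidAlgebra.coeff_mul, Finsupp.sum]
  refine Finset.sum_eq_zero fun i hi => ?_
  rw [Finsupp.sum]
  refine Finset.sum_eq_zero fun j hj => ?_
  rw [if_neg]
  intro hij
  have h1 : -n ≤ i := by
    by_contra hc
    exact (Finsupp.mem_support_iff.1 hi) (hf i (by omega))
  have h2 : -k ≤ j := by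
    by_contra hc
    exact (Finsupp.mem_support_iff.1 hj) (hg j (by omega))
  omega

theorem Bd.T (n : ℤ) : Bd n (LaurentPolynomial.T (-n)) := by
  intro m hm
  rw [LaurentPolynomial.T_apply, if_neg (by omega)]

theorem Bd.T' {n m : ℤ} (h : -n ≤ m) : Bd n (LaurentPolynomial.T m) := by
  intro k hk
  rw [LaurentPolynomial.T_apply, if_neg (by omega)]

theorem Bd.one : Bd 0 (1 : ℤ[T;T⁻¹]) := Bd.T 0

theorem NN.zero : NN 0 := fun m => by simp

theorem NN.add {f g : ℤ[T;T⁻¹]} (hf : NN f) (hg : NN g) : NN (f + g) := by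
  intro m
  rw [AddMonoidAlgebra.coeff_add, Finsupp.add_apply]
  exact add_nonneg (hf m) (hg m)

theorem NN.sum {α : Type*} (s : Finset α) (f : α → ℤ[T;T⁻¹]) (h : ∀ a ∈ s, NN (f a)) :
    NN (∑ a ∈ s, f a) :=
  Finset.sum_induction f NN (fun _ _ => NN.add) NN.zero h

theorem NN.mul {f g : ℤ[T;T⁻¹]} (hf : NN f) (hg : NN g) : NN (f * g) := by
  intro m
  rw [AddMonoidAlgebra.coeff_mul, Finsupp.sum]
  refine Finset.sum_nonneg fun i hi => ?_
  rw [Finsupp.sum]
  refine Finset.sum_nonneg fun j hj => ?_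
  split
  · exact mul_nonneg (hf i) (hg j)
  · exact le_refl _

theorem NN.T (n : ℤ) : NN (LaurentPolynomial.T n) := by
  intro m
  rw [LaurentPolynomial.T_apply]
  split <;> norm_num

theorem NN.one : NN (1 : ℤ[T;T⁻¹]) := NN.T 0

theorem coeff_T_mul (n : ℤ) (f : ℤ[T;T⁻¹]) (m : ℤ) :
    (LaurentPolynomial.T n * f).coeff m = f.coeff (m - n) := by
  have := AddMonoidAlgebra.coeff_single_mul_eq_mul_coeff (x := f) (r := (1 : ℤ)) (m := n) (m₁ := m)
    (m - n) (fun m' _ => by omega)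
  rw [one_mul] at this
  exact this

/-- If `f = v^{-n} + f'` with `f'` nonnegative and `g` is nonnegative, and `f g ∈ v^{-n} ℤ[v]`, then `g ∈ ℤ[v]`. -/
theorem Bd.of_mul {n : ℤ} {f f' g : ℤ[T;T⁻¹]} (hf : f = LaurentPolynomial.T (-n) + f')
    (hf' : NN f') (hg : NN g) (h : Bd n (f * g)) : Bd 0 g := by
  intro m hm
  have h1 := h (m - n) (by omega)
  rw [hf, add_mul, AddMonoidAlgebra.coeff_add, Finsupp.add_apply, coeff_T_mul] at h1
  have h2 := (hf'.mul hg) (m - n)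
  have h3 := hg m
  have e : m - n - -n = m := by ring
  rw [e] at h1
  omega

/-- If a sum of nonnegative Laurent polynomials lies in `ℤ[v]`, so does each of them. -/
theorem Bd.of_add {n : ℤ} {f g : ℤ[T;T⁻¹]} (hf : NN f) (hg : NN g) (h : Bd n (f + g)) : Bd n f := by
  intro m hm
  have h1 := h m hm
  rw [AddMonoidAlgebra.coeff_add, Finsupp.add_apply] at h1
  have := hf m
  have := hg m
  omega

theorem NN.eq_zero_of_add {f g : ℤ[T;T⁻¹]} (hf : NN f) (hg : NN g) (h : f + g = 0) : f = 0 := by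
  ext m
  have h1 := congrArg (fun p : ℤ[T;T⁻¹] => p.coeff m) h
  simp only [AddMonoidAlgebra.coeff_add, Finsupp.add_apply, AddMonoidAlgebra.coeff_zero,
    Finsupp.zero_apply] at h1
  have := hf m
  have := hg m
  simp only [AddMonoidAlgebra.coeff_zero, Finsupp.zero_apply]
  omega

theorem NN.eq_zero_of_sum {α : Type*} {s : Finset α} {f : α → ℤ[T;T⁻¹]} (hf : ∀ a ∈ s, NN (f a))
    (h : ∑ a ∈ s, f a = 0) {a : α} (ha : a ∈ s) : f a = 0 := by
  classical
  rw [← Finset.add_sum_erase s f ha] at h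
  exact NN.eq_zero_of_add (hf a ha) (NN.sum _ _ fun c hc => hf c (Finset.mem_of_mem_erase hc)) h

theorem Bd.of_sum {α : Type*} {n : ℤ} {s : Finset α} {f : α → ℤ[T;T⁻¹]} (hf : ∀ a ∈ s, NN (f a))
    (h : Bd n (∑ a ∈ s, f a)) {a : α} (ha : a ∈ s) : Bd n (f a) := by
  classical
  rw [← Finset.add_sum_erase s f ha] at h
  exact Bd.of_add (hf a ha) (NN.sum _ _ fun c hc => hf c (Finset.mem_of_mem_erase hc)) h

end Pool.Agent.PPS10
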