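import Pool.Agent.PPS10.Xmin
import Pool.Agent.PPS10.Laurent

set_option autoImplicit false

/-!
# PPS10/Hecke (MP_6908e7_al, helper10): the Iwahori-Hecke algebra, and the bound on its structure constants

`T_x T_y` is a combination of elements `T_z` with coefficients in `v^{-N} ℤ[v]`, `N` the number of positive roots, and
`ℓ(z) ≤ ℓ(x) + ℓ(y)`.
-/

namespace Pool.Agent.PPS10

open scoped Classical LaurentPolynomial

variable {ι X Y : Type} [Fintype ι] [AddCommGroup X] [AddCommGroup Y] {P : RootPairing ι ℤ X Y}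

variable {b : P.Base} (A : HeckeAlg b)

/-- All coefficients of `z` lie in `v^{-n} ℤ[v]`. -/
def BdH (n : ℤ) (z : A.H) : Prop := ∀ x, Bd n (A.Ts.repr z x)

/-- `z` is a combination of elements `T_x` with `ℓ(x) ≤ n`. -/
def LenLe (n : ℕ) (z : A.H) : Prop := ∀ x, A.Ts.repr z x ≠ 0 → len b x ≤ n

variable {A}

theorem BdH.mono {n n' : ℤ} {z : A.H} (h : BdH A n z) (hn : n ≤ n') : BdH A n' z :=
  fun x => (h x).mono hn

theorem BdH.add {n : ℤ} {y z : A.H} (hy : BdH A n y) (hz : BdH A n z) : BdH A n (y + z) := by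
  intro x
  rw [map_add, Finsupp.add_apply]
  exact (hy x).add (hz x)

theorem BdH.zero (n : ℤ) : BdH A n 0 := by
  intro x
  rw [map_zero]
  exact Bd.zero n

theorem BdH.smul {n k : ℤ} {a : ℤ[T;T⁻¹]} {z : A.H} (ha : Bd k a) (hz : BdH A n z) :
    BdH A (k + n) (a • z) := by
  intro x
  rw [map_smul, Finsupp.smul_apply, smul_eq_mul]
  exact ha.mul (hz x)

theorem BdH.sum {α : Type*} {n : ℤ} (s : Finset α) (f : α → A.H) (h : ∀ a ∈ s, BdH A n (f a)) :
    BdH A n (∑ a ∈ s, f a) :=
  Finset.sum_induction f (BdH A n) (fun _ _ => BdH.add) (BdH.zero n) h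

theorem BdH.Ts (x : EW P) : BdH A 0 (A.Ts x) := by
  intro y
  rw [A.Ts.repr_self, Finsupp.single_apply]
  split
  · exact Bd.one
  · exact Bd.zero 0

theorem LenLe.mono {n n' : ℕ} {z : A.H} (h : LenLe A n z) (hn : n ≤ n') : LenLe A n' z :=
  fun x hx => (h x hx).trans hn

theorem LenLe.add {n : ℕ} {y z : A.H} (hy : LenLe A n y) (hz : LenLe A n z) :
    LenLe A n (y + z) := by
  intro x hx
  rw [map_add, Finsupp.add_apply] at hx
  by_cases c : A.Ts.repr y x = 0
  · rw [c, zero_add] at hx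
    exact hz x hx
  · exact hy x c

theorem LenLe.zero (n : ℕ) : LenLe A n 0 := by
  intro x hx
  simp at hx

theorem LenLe.smul {n : ℕ} {z : A.H} (a : ℤ[T;T⁻¹]) (hz : LenLe A n z) : LenLe A n (a • z) := by
  intro x hx
  rw [map_smul, Finsupp.smul_apply, smul_eq_mul] at hx
  exact hz x (right_ne_zero_of_mul hx)

theorem LenLe.sum {α : Type*} {n : ℕ} (s : Finset α) (f : α → A.H)
    (h : ∀ a ∈ s, LenLe A n (f a)) : LenLe A n (∑ a ∈ s, f a) :=
  Finset.sum_induction f (LenLe A n) (fun _ _ => LenLe.add) (LenLe.zero n) h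

theorem LenLe.Ts (x : EW P) : LenLe A (len b x) (A.Ts x) := by
  intro y hy
  rw [A.Ts.repr_self, Finsupp.single_apply] at hy
  by_cases c : x = y
  · rw [c]
  · rw [if_neg c] at hy; exact absurd rfl hy

theorem expand (z : A.H) : z = ∑ x ∈ (A.Ts.repr z).support, A.Ts.repr z x • A.Ts x := by
  conv_lhs => rw [← A.Ts.linearCombination_repr z]
  rfl

theorem expand_mul (z z' : A.H) : z * z' = ∑ x ∈ (A.Ts.repr z).support,
    ∑ y ∈ (A.Ts.repr z').support, (A.Ts.repr z x * A.Ts.repr z' y) • (A.Ts x * A.Ts y) := by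
  conv_lhs => rw [expand z, expand z', Finset.sum_mul_sum]
  refine Finset.sum_congr rfl fun x _ => Finset.sum_congr rfl fun y _ => ?_
  rw [smul_mul_smul_comm]

theorem Bd_xi : Bd 1 xi := by
  unfold xi
  exact (Bd.T 1).sub (Bd.T' (by norm_num))

theorem Ts_mul_simple_down {s : EW P} (hs : IsSimple b s) (h4 : s * s = 1) {u : EW P}
    (h : len b (u * s) + 1 = len b u) :
    A.Ts u * A.Ts s = A.Ts (u * s) + xi • A.Ts u := by
  have e1 : A.Ts (u * s) * A.Ts s = A.Ts u := by
    rw [A.mul_len]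
    · rw [mul_assoc, h4, mul_one]
    · rw [mul_assoc, h4, mul_one, hs.2, h]
  conv_lhs => rw [← e1]
  rw [mul_assoc, A.mul_sq s hs, mul_add, mul_one, mul_smul_comm, e1]

variable [P.IsReduced]

/-- One step of the product `T_u T_y`. -/
theorem mul_step (u : EW P) {y : EW P} (hy : 0 < len b y) :
    ∃ s, len b (s * y) < len b y ∧
      ((A.Ts u * A.Ts y = A.Ts (u * s) * A.Ts (s * y) ∧ pot b (u * s) (s * y) ≤ pot b u y ∧
        len b (u * s) + len b (s * y) = len b u + len b y) ∨
      (A.Ts u * A.Ts y = A.Ts (u * s) * A.Ts (s * y) + xi • (A.Ts u * A.Ts (s * y)) ∧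
        pot b (u * s) (s * y) ≤ pot b u y ∧ pot b u (s * y) + 1 ≤ pot b u y ∧
        len b (u * s) ≤ len b u)) := by
  obtain ⟨s, κ, hs, h1, hκ, hlen⟩ := exists_left_descent b hy
  obtain ⟨h2, h3, h4⟩ := simple_props hs h1
  refine ⟨s, by omega, ?_⟩
  have e1 : A.Ts y = A.Ts s * A.Ts (s * y) := by
    rw [A.mul_len]
    · rw [← mul_assoc, h4, one_mul]
    · rw [← mul_assoc, h4, one_mul, hs.2]
      omega
  have p1 := pot_unfold hs h1 u hκ
  by_cases c : 0 ≤ dd b (u.lin • κ) u
  · left
    have e2 := len_mul_simple_up h1 h2 c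
    refine ⟨?_, p1, ?_⟩
    · rw [e1, ← mul_assoc, A.mul_len u s e2]
    · rw [e2, hs.2]; omega
  · right
    have e2 := len_mul_simple_down hs h1 h2 h3 h4 (x := u) (by omega)
    refine ⟨?_, p1, pot_fold hs h1 hκ (by omega), by omega⟩
    rw [e1, ← mul_assoc, Ts_mul_simple_down hs h4 e2, add_mul, smul_mul_assoc]

theorem mul_BdH (u y : EW P) : BdH A (pot b u y) (A.Ts u * A.Ts y) := by
  generalize hn : len b y = n
  induction n using Nat.strong_induction_on generalizing u y with
  | _ n ih =>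
    rcases Nat.eq_zero_or_pos (len b y) with h0 | h0
    · rw [A.mul_len]
      · exact (BdH.Ts _).mono (pot_nonneg b u y)
      · refine len_mul_add fun γ => ?_
        rw [dd_eq_zero_of_len h0]
        rcases le_total 0 (dd b γ u) with h | h
        · exact Or.inl ⟨h, le_refl _⟩
        · exact Or.inr ⟨h, le_refl _⟩
    · obtain ⟨s, hl, ⟨e, hp, _⟩ | ⟨e, hp, hp', _⟩⟩ := mul_step (A := A) u h0
      · rw [e]
        exact (ih _ (by omega) _ _ rfl).mono hp
      · rw [e]
        refine ((ih _ (by omega) _ _ rfl).mono hp).add ?_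
        exact (BdH.smul Bd_xi (ih _ (by omega) u (s * y) rfl)).mono (by omega)

theorem mul_LenLe (u y : EW P) : LenLe A (len b u + len b y) (A.Ts u * A.Ts y) := by
  generalize hn : len b y = n
  induction n using Nat.strong_induction_on generalizing u y with
  | _ n ih =>
    rcases Nat.eq_zero_or_pos (len b y) with h0 | h0
    · have e : len b (u * y) = len b u + len b y := by
        refine len_mul_add fun γ => ?_
        rw [dd_eq_zero_of_len h0]
        rcases le_total 0 (dd b γ u) with h | h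
        · exact Or.inl ⟨h, le_refl _⟩
        · exact Or.inr ⟨h, le_refl _⟩
      rw [A.mul_len _ _ e]
      exact (LenLe.Ts _).mono (by omega)
    · obtain ⟨s, hl, ⟨e, _, he⟩ | ⟨e, _, _, he⟩⟩ := mul_step (A := A) u h0
      · rw [e]
        exact (ih _ (by omega) (u * s) (s * y) rfl).mono (by omega)
      · rw [e]
        refine ((ih _ (by omega) (u * s) (s * y) rfl).mono (by omega)).add ?_
        exact LenLe.smul _ ((ih _ (by omega) u (s * y) rfl).mono (by omega))

/-- The degree bound for products. -/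
theorem BdH.mul {m n : ℤ} {z z' : A.H} (hz : BdH A m z) (hz' : BdH A n z') :
    BdH A (m + n + npos b) (z * z') := by
  rw [expand_mul]
  refine BdH.sum _ _ fun x _ => BdH.sum _ _ fun y _ => ?_
  exact BdH.smul ((hz x).mul (hz' y)) ((mul_BdH x y).mono (pot_le b x y))

theorem LenLe.mul {m n : ℕ} {z z' : A.H} (hz : LenLe A m z) (hz' : LenLe A n z') :
    LenLe A (m + n) (z * z') := by
  rw [expand_mul]
  refine LenLe.sum _ _ fun x hx => LenLe.sum _ _ fun y hy => ?_
  have h1 := hz x (Finsupp.mem_support_iff.1 hx)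
  have h2 := hz' y (Finsupp.mem_support_iff.1 hy)
  exact LenLe.smul _ ((mul_LenLe x y).mono (by omega))

end Pool.Agent.PPS10
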