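import Pool.Agent.PPS10.Hecke

set_option autoImplicit false

/-!
# PPS10/HeckeEx (MP_6908e7_al, helper10): the Iwahori-Hecke algebra of the extended affine Weyl group exists

It is constructed as the commutant of the right operators on the free module with basis the extended affine Weyl group.
-/

namespace Pool.Agent.PPS10

open scoped Classical LaurentPolynomial

variable {ι X Y : Type} [Fintype ι] [AddCommGroup X] [AddCommGroup Y] {P : RootPairing ι ℤ X Y}

omit [Fintype ι] in
theorem affRefl_nrt (γ : ι) (n : ℤ) : affRefl P (nrt P γ) n = affRefl P γ (-n) := by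
  apply EW.ext
  · change n • P.coroot (nrt P γ) = (-n) • P.coroot γ
    have : P.coroot (nrt P γ) = -P.coroot γ := by simp [nrt]
    rw [this, smul_neg, neg_smul]
  · exact ofIdx_nrt γ

omit [Fintype ι] in
theorem conj_affRefl (x : EW P) (γ : ι) (n : ℤ) :
    x * affRefl P γ n * x⁻¹ =
      affRefl P (x.lin • γ) (n + P.toLinearMap (P.root (x.lin • γ)) x.tr) := by
  apply EW.ext
  · change x.tr + cw P x.lin (n • P.coroot γ) +
      cw P (x.lin * RootPairing.weylGroup.ofIdx P γ) (-cw P x.lin⁻¹ x.tr) =
      (n + P.toLinearMap (P.root (x.lin • γ)) x.tr) • P.coroot (x.lin • γ)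
    have e1 : cw P (x.lin * RootPairing.weylGroup.ofIdx P γ) (-cw P x.lin⁻¹ x.tr) =
        -P.coreflection (x.lin • γ) x.tr := by
      rw [map_neg, ← cw_mul, conj_ofIdx, cw_ofIdx]
    rw [e1, map_zsmul, cw_coroot, RootPairing.coreflection_apply, add_smul]
    change _ = _ + P.root' (x.lin • γ) x.tr • _
    abel
  · change x.lin * RootPairing.weylGroup.ofIdx P γ * x.lin⁻¹ = _
    exact conj_ofIdx _ _

omit [Fintype ι] in
theorem affRefl_eq (b : P.Base) {γ : ι} {m n : ℤ} {x : EW P}
    (h : kf b γ (affRefl P γ m * x) = kf b γ (affRefl P γ n * x)) : m = n := by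
  rw [kf_mul, kf_mul] at h
  have e : ∀ k : ℤ, P.toLinearMap (P.root γ) (affRefl P γ k).tr = 2 * k := by
    intro k
    change P.toLinearMap (P.root γ) (k • P.coroot γ) = 2 * k
    rw [map_zsmul, smul_eq_mul]
    have : P.toLinearMap (P.root γ) (P.coroot γ) = 2 := by simp
    rw [this]; ring
  have e2 : ∀ k : ℤ, (affRefl P γ k).lin = RootPairing.weylGroup.ofIdx P γ := fun k => rfl
  rw [e, e, e2, e2] at h
  omega

theorem simple_root {b : P.Base} {γ0 : ι} {n : ℤ} {κ : ι} (h1 : dd b κ (affRefl P γ0 n) = 1)
    (h2 : ∀ γ, γ ≠ κ → γ ≠ nrt P κ → dd b γ (affRefl P γ0 n) = 0) : γ0 = κ ∨ γ0 = nrt P κ := by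
  by_contra hc
  push Not at hc
  have h3 := h2 γ0 hc.1 hc.2
  rw [dd, kf_affRefl, kf_one, refl_self, ng_nrt] at h3
  have : P.pairing γ0 γ0 = 2 := by simp
  rw [this] at h3
  omega

/-- Two simple reflections `s`, `t` and `x` with `s` and `x t x⁻¹` reflections in the same wall. -/
theorem simple_conj {b : P.Base} {s t : EW P} (hs : IsSimple b s) (ht : IsSimple b t) {κ κ' : ι}
    (h1 : dd b κ s = 1) (h1' : dd b κ' t = 1) {x : EW P}
    (hk : κ = x.lin • κ' ∨ κ = nrt P (x.lin • κ'))
    (h : dd b κ (s * x) = dd b κ (x * t)) : s * x = x * t := by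
  obtain ⟨h2, _, _⟩ := simple_props hs h1
  obtain ⟨h2', _, _⟩ := simple_props ht h1'
  obtain ⟨⟨γ, n, rfl⟩, _⟩ := hs
  obtain ⟨⟨γ', n', rfl⟩, _⟩ := ht
  have e1 := simple_root h1 h2
  have e2 := simple_root h1' h2'
  have e3 : x.lin • γ' = γ ∨ x.lin • γ' = nrt P γ := by
    rcases e1 with e1 | e1 <;> rcases e2 with e2 | e2 <;> rcases hk with hk | hk <;>
      rw [e1, e2, hk] <;> simp [smul_nrt]
  have e4 : ∃ m, x * affRefl P γ' n' * x⁻¹ = affRefl P γ m := by
    rw [conj_affRefl]
    rcases e3 with e3 | e3
    · rw [e3]; exact ⟨_, rfl⟩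
    · rw [e3, affRefl_nrt]; exact ⟨_, rfl⟩
  obtain ⟨m, hm⟩ := e4
  have e5 : x * affRefl P γ' n' = affRefl P γ m * x := by rw [← hm]; group
  have e6 : kf b γ (affRefl P γ n * x) = kf b γ (affRefl P γ m * x) := by
    rw [← e5]
    have e7 : κ = γ ∨ κ = nrt P γ := by
      rcases e1 with e1 | e1
      · exact Or.inl e1.symm
      · right; rw [e1, nrt_nrt]
    unfold dd at h
    rcases e7 with e7 | e7
    · rw [e7] at h; omega
    · rw [e7] at h
      simp only [kf_nrt] at h
      omega
  rw [e5, affRefl_eq b e6]

/-- The free module. -/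
abbrev FM (P : RootPairing ι ℤ X Y) : Type := EW P →₀ ℤ[T;T⁻¹]

/-- The left operator of `g`. -/
noncomputable def lop (b : P.Base) (g : EW P) : Module.End ℤ[T;T⁻¹] (FM P) :=
  Finsupp.linearCombination _ fun x =>
    Finsupp.single (g * x) 1 + if len b (g * x) < len b x then xi • Finsupp.single x 1 else 0

/-- The right operator of `g`. -/
noncomputable def rop (b : P.Base) (g : EW P) : Module.End ℤ[T;T⁻¹] (FM P) :=
  Finsupp.linearCombination _ fun x =>
    Finsupp.single (x * g) 1 + if len b (x * g) < len b x then xi • Finsupp.single x 1 else 0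

/-- The generators: the simple reflections and the elements of length zero. -/
def IsGen (b : P.Base) (g : EW P) : Prop := IsSimple b g ∨ len b g = 0

theorem lop_single (b : P.Base) (g x : EW P) : lop b g (Finsupp.single x 1) =
    Finsupp.single (g * x) 1 + if len b (g * x) < len b x then xi • Finsupp.single x 1 else 0 := by
  rw [lop, Finsupp.linearCombination_single, one_smul]

theorem rop_single (b : P.Base) (g x : EW P) : rop b g (Finsupp.single x 1) =
    Finsupp.single (x * g) 1 + if len b (x * g) < len b x then xi • Finsupp.single x 1 else 0 := by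
  rw [rop, Finsupp.linearCombination_single, one_smul]

theorem len_zero_mul {b : P.Base} {g : EW P} (hg : len b g = 0) (x : EW P) :
    len b (g * x) = len b x := by
  have h1 := len_mul_le b g x
  have h2 := len_mul_le b g⁻¹ (g * x)
  rw [inv_mul_cancel_left, len_inv] at h2
  omega

theorem len_mul_zero {b : P.Base} {g : EW P} (hg : len b g = 0) (x : EW P) :
    len b (x * g) = len b x := by
  have h1 := len_mul_le b x g
  have h2 := len_mul_le b (x * g) g⁻¹
  rw [mul_inv_cancel_right, len_inv] at h2
  omega

theorem lt_left_iff {b : P.Base} {s : EW P} (hs : IsSimple b s) {κ : ι} (h1 : dd b κ s = 1)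
    (x : EW P) : len b (s * x) < len b x ↔ 0 < dd b κ x := by
  obtain ⟨h2, h3, h4⟩ := simple_props hs h1
  constructor
  · intro h
    by_contra hc
    have := len_simple_mul_up h1 h2 h4 (y := x) (by omega)
    omega
  · intro h
    have := len_simple_mul_down hs h1 h2 h3 h4 h
    omega

theorem lt_right_iff {b : P.Base} {s : EW P} (hs : IsSimple b s) {κ : ι} (h1 : dd b κ s = 1)
    (x : EW P) : len b (x * s) < len b x ↔ dd b (x.lin • κ) x < 0 := by
  obtain ⟨h2, h3, h4⟩ := simple_props hs h1
  constructor
  · intro h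
    by_contra hc
    have := len_mul_simple_up h1 h2 (x := x) (by omega)
    omega
  · intro h
    have := len_mul_simple_down hs h1 h2 h3 h4 h
    omega

private theorem comm_simple {b : P.Base} {s t : EW P} (hs : IsSimple b s) (ht : IsSimple b t)
    (x : EW P) :
    lop b s (rop b t (Finsupp.single x 1)) = rop b t (lop b s (Finsupp.single x 1)) := by
  obtain ⟨κ, h1, h2, h3, h4⟩ := simple_data hs
  obtain ⟨κ', h1', h2', h3', h4'⟩ := simple_data ht
  have key : (if 0 < dd b κ (x * t) then (Finsupp.single (x * t) 1 : FM P) else 0) +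
      (if dd b (x.lin • κ') x < 0 then (Finsupp.single (s * x) 1 : FM P) else 0) =
      (if dd b ((s * x).lin • κ') (s * x) < 0 then (Finsupp.single (s * x) 1 : FM P) else 0) +
      (if 0 < dd b κ x then (Finsupp.single (x * t) 1 : FM P) else 0) := by
    have hss : s.lin⁻¹ = s.lin := by rw [← inv_lin, simple_inv h4]
    have a1 : dd b κ (x * t) = dd b κ x + dd b (x.lin⁻¹ • κ) t := dd_mul b κ x t
    have a2 : dd b ((s * x).lin • κ') (s * x) =
        dd b (s.lin • x.lin • κ') s + dd b (x.lin • κ') x := by
      rw [dd_mul, mul_lin, mul_smul, hss, h3, h3, refl_refl]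
    by_cases c1 : κ = x.lin • κ'
    · have b1 : x.lin⁻¹ • κ = κ' := by rw [c1, inv_smul_smul]
      have b2 : dd b (s.lin • x.lin • κ') s = -1 := by
        rw [← c1, h3, refl_self, dd_nrt, h1]
      rw [b1, h1'] at a1
      rw [b2] at a2
      rw [a1, a2, ← c1]
      rcases lt_trichotomy (dd b κ x) 0 with h | h | h
      · rw [if_neg (by omega), if_pos h, if_pos (by omega), if_neg (by omega)]
        rw [zero_add, add_zero]
      · rw [if_pos (by omega), if_neg (by omega), if_pos (by omega), if_neg (by omega)]
        rw [simple_conj hs ht h1 h1' (x := x) (Or.inl c1)]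
        rw [a1, dd_mul, h1, hss, h3, refl_self, dd_nrt]
        omega
      · rw [if_pos (by omega), if_neg (by omega), if_neg (by omega), if_pos h]
        rw [zero_add, add_zero]
    · by_cases c2 : κ = nrt P (x.lin • κ')
      · have b0 : x.lin • κ' = nrt P κ := by rw [c2, nrt_nrt]
        have b1 : x.lin⁻¹ • κ = nrt P κ' := by rw [c2, ← smul_nrt, inv_smul_smul]
        have b2 : dd b (s.lin • x.lin • κ') s = 1 := by
          rw [b0, h3, refl_nrt_right, refl_self, nrt_nrt, h1]
        rw [b1, dd_nrt, h1'] at a1
        rw [b2, b0, dd_nrt] at a2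
        rw [a1, a2, b0, dd_nrt]
        rcases lt_trichotomy (dd b κ x) 1 with h | h | h
        · rw [if_neg (by omega), if_neg (by omega), if_neg (by omega), if_neg (by omega)]
        · rw [if_neg (by omega), if_pos (by omega), if_neg (by omega), if_pos (by omega)]
          rw [simple_conj hs ht h1 h1' (x := x) (Or.inr c2)]
          rw [a1, dd_mul, h1, hss, h3, refl_self, dd_nrt]
          omega
        · rw [if_pos (by omega), if_pos (by omega), if_pos (by omega), if_pos (by omega)]
          rw [add_comm]
      · have b1 : dd b (x.lin⁻¹ • κ) t = 0 := by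
          refine h2' _ ?_ ?_
          · intro h
            apply c1
            rw [← h, smul_inv_smul]
          · intro h
            apply c2
            rw [← smul_nrt, ← h, smul_inv_smul]
        have b2 : dd b (s.lin • x.lin • κ') s = 0 := by
          refine h2 _ ?_ ?_
          · intro h
            apply c2
            have := congrArg (fun z => s.lin • z) h
            simp only [h3, refl_refl, refl_self] at this
            rw [this, nrt_nrt]
          · intro h
            apply c1
            have := congrArg (fun z => s.lin • z) h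
            simp only [h3, refl_refl, refl_nrt_right, refl_self, nrt_nrt] at this
            exact this.symm
        rw [a1, a2, b1, b2, add_zero, zero_add, add_comm]
  rw [lop_single, rop_single, map_add, map_add, lop_single, rop_single]
  simp only [lt_left_iff hs h1, lt_right_iff ht h1']
  have e1 : lop b s (if dd b (x.lin • κ') x < 0 then xi • Finsupp.single x 1 else 0) =
      if dd b (x.lin • κ') x < 0 then xi • (Finsupp.single (s * x) 1 +
        if 0 < dd b κ x then xi • Finsupp.single x 1 else 0) else 0 := by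
    split
    · rw [map_smul, lop_single]
      simp only [lt_left_iff hs h1]
    · exact map_zero _
  have e2 : rop b t (if 0 < dd b κ x then xi • Finsupp.single x 1 else 0) =
      if 0 < dd b κ x then xi • (Finsupp.single (x * t) 1 +
        if dd b (x.lin • κ') x < 0 then xi • Finsupp.single x 1 else 0) else 0 := by
    split
    · rw [map_smul, rop_single]
      simp only [lt_right_iff ht h1']
    · exact map_zero _
  rw [e1, e2, mul_assoc]
  have key2 := congrArg (fun z : FM P => xi • z) key
  by_cases p : dd b (x.lin • κ') x < 0 <;> by_cases q : 0 < dd b κ x <;>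
    by_cases p1 : 0 < dd b κ (x * t) <;>
    by_cases q1 : dd b ((s * x).lin • κ') (s * x) < 0 <;>
    simp only [p, q, p1, q1, if_true, if_false, smul_add, smul_zero, add_zero, zero_add]
      at key2 ⊢ <;>
    linear_combination (norm := module) key2

private theorem comm_single {b : P.Base} {g h : EW P} (hg : IsGen b g) (hh : IsGen b h)
    (x : EW P) :
    lop b g (rop b h (Finsupp.single x 1)) = rop b h (lop b g (Finsupp.single x 1)) := by
  rcases hg with hg | hg
  · rcases hh with hh | hh
    · exact comm_simple hg hh x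
    · have e : ∀ y : EW P, rop b h (Finsupp.single y 1) = Finsupp.single (y * h) 1 := by
        intro y
        rw [rop_single, if_neg, add_zero]
        rw [len_mul_zero hh]; omega
      rw [e, lop_single, lop_single, map_add, e, ← mul_assoc, len_mul_zero hh, len_mul_zero hh]
      congr 1
      split
      · rw [map_smul, e]
      · rw [map_zero]
  · have e : ∀ y : EW P, lop b g (Finsupp.single y 1) = Finsupp.single (g * y) 1 := by
      intro y
      rw [lop_single, if_neg, add_zero]
      rw [len_zero_mul hg]; omega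
    rw [e, rop_single, rop_single, map_add, e, mul_assoc, len_zero_mul hg, len_zero_mul hg]
    congr 1
    split
    · rw [map_smul, e]
    · rw [map_zero]

theorem comm_ops {b : P.Base} {g h : EW P} (hg : IsGen b g) (hh : IsGen b h) :
    lop b g * rop b h = rop b h * lop b g := by
  refine Finsupp.lhom_ext' fun x => LinearMap.ext_ring ?_
  exact comm_single hg hh x

/-- The Hecke algebra: the commutant of the right operators. -/
noncomputable def hAlg (b : P.Base) : Subalgebra ℤ[T;T⁻¹] (Module.End ℤ[T;T⁻¹] (FM P)) :=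
  Subalgebra.centralizer _ {φ | ∃ h, IsGen b h ∧ φ = rop b h}

theorem lop_mem {b : P.Base} {g : EW P} (hg : IsGen b g) : lop b g ∈ hAlg b := by
  rw [hAlg, Subalgebra.mem_centralizer_iff]
  rintro φ ⟨h, hh, rfl⟩
  exact (comm_ops hg hh).symm

variable [P.IsReduced]

/-- Induction on the length, left version. -/
theorem left_induction (b : P.Base) {p : EW P → Prop} (h0 : ∀ x, len b x = 0 → p x)
    (h1 : ∀ s x, IsSimple b s → len b (s * x) = len b x + 1 → p x → p (s * x)) (x : EW P) : p x := by
  generalize hn : len b x = n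
  induction n using Nat.strong_induction_on generalizing x with
  | _ n ih =>
    rcases Nat.eq_zero_or_pos (len b x) with h | h
    · exact h0 x h
    · obtain ⟨s, κ, hs, e1, _, hl⟩ := exists_left_descent b h
      obtain ⟨_, _, h4⟩ := simple_props hs e1
      have e : s * (s * x) = x := by rw [← mul_assoc, h4, one_mul]
      rw [← e]
      refine h1 s (s * x) hs (by rw [e]; omega) (ih _ (by omega) _ rfl)

/-- Induction on the length, right version. -/
theorem right_induction (b : P.Base) {p : EW P → Prop} (h0 : ∀ x, len b x = 0 → p x)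
    (h1 : ∀ s x, IsSimple b s → len b (x * s) = len b x + 1 → p x → p (x * s)) (x : EW P) : p x := by
  have key := left_induction b (p := fun x => p x⁻¹) (fun x hx => h0 _ (by rw [len_inv]; exact hx))
    (fun s x hs hl hp => by
      obtain ⟨κ, _, _, _, h4⟩ := simple_data hs
      have e : (s * x)⁻¹ = x⁻¹ * s := by rw [mul_inv_rev, simple_inv h4]
      change p (s * x)⁻¹
      rw [e]
      refine h1 s x⁻¹ hs ?_ hp
      rw [← e, len_inv, len_inv, hl]) x⁻¹
  simpa using key

/-- An element of the commutant is determined by its value on the basis vector of `1`. -/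
theorem eq_of_one {b : P.Base} {φ ψ : Module.End ℤ[T;T⁻¹] (FM P)} (hφ : φ ∈ hAlg b)
    (hψ : ψ ∈ hAlg b) (h : φ (Finsupp.single 1 1) = ψ (Finsupp.single 1 1)) : φ = ψ := by
  rw [hAlg, Subalgebra.mem_centralizer_iff] at hφ hψ
  have hc : ∀ g, IsGen b g → ∀ v, φ (rop b g v) = rop b g (φ v) := fun g hg v =>
    (LinearMap.congr_fun (hφ _ ⟨g, hg, rfl⟩) v).symm
  have hc' : ∀ g, IsGen b g → ∀ v, ψ (rop b g v) = rop b g (ψ v) := fun g hg v =>
    (LinearMap.congr_fun (hψ _ ⟨g, hg, rfl⟩) v).symm
  have key : ∀ x : EW P, φ (Finsupp.single x 1) = ψ (Finsupp.single x 1) := by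
    intro x
    refine right_induction b (p := fun x => φ (Finsupp.single x 1) = ψ (Finsupp.single x 1))
      ?_ ?_ x
    · intro x hx
      have e : (Finsupp.single x 1 : FM P) = rop b x (Finsupp.single 1 1) := by
        rw [rop_single, one_mul, if_neg, add_zero]
        rw [hx, len_one]; omega
      rw [e, hc x (Or.inr hx), hc' x (Or.inr hx), h]
    · intro s x hs hl hp
      have e : (Finsupp.single (x * s) 1 : FM P) = rop b s (Finsupp.single x 1) := by
        rw [rop_single, if_neg, add_zero]
        omega
      rw [e, hc s (Or.inl hs), hc' s (Or.inl hs), hp]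
  exact Finsupp.lhom_ext' fun x => LinearMap.ext_ring (key x)

/-- For every `x` there is an element of the commutant with value the basis vector of `x`; it acts by left
multiplication on the basis vectors of the `y` with `ℓ(xy) = ℓ(x) + ℓ(y)`. -/
theorem exists_left (b : P.Base) (x : EW P) : ∃ φ ∈ hAlg b,
    ∀ y, len b (x * y) = len b x + len b y → φ (Finsupp.single y 1) = Finsupp.single (x * y) 1 := by
  refine left_induction b (p := fun x => ∃ φ ∈ hAlg b, ∀ y, len b (x * y) = len b x + len b y →
    φ (Finsupp.single y 1) = Finsupp.single (x * y) 1) ?_ ?_ x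
  · intro x hx
    refine ⟨lop b x, lop_mem (Or.inr hx), fun y hy => ?_⟩
    rw [lop_single, if_neg, add_zero]
    omega
  · rintro s x hs hl ⟨φ, hφ, h⟩
    refine ⟨lop b s * φ, (hAlg b).mul_mem (lop_mem (Or.inl hs)) hφ, fun y hy => ?_⟩
    have h1 := len_mul_le b x y
    have h2 := len_mul_le b s (x * y)
    rw [hs.2] at h2
    rw [mul_assoc] at hy
    rw [Module.End.mul_apply, h y (by omega), lop_single, if_neg, add_zero, mul_assoc]
    omega

/-- Evaluation at the basis vector of `1`. -/
noncomputable def evOne (b : P.Base) : hAlg b →ₗ[ℤ[T;T⁻¹]] FM P where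
  toFun φ := φ.1 (Finsupp.single 1 1)
  map_add' _ _ := rfl
  map_smul' _ _ := rfl

theorem evOne_bijective (b : P.Base) : Function.Bijective (evOne b) := by
  constructor
  · intro φ ψ h
    exact Subtype.ext (eq_of_one φ.2 ψ.2 h)
  · intro v
    induction v using Finsupp.induction_linear with
    | zero => exact ⟨0, map_zero _⟩
    | add v w hv hw =>
      obtain ⟨φ, rfl⟩ := hv
      obtain ⟨ψ, rfl⟩ := hw
      exact ⟨φ + ψ, map_add _ _ _⟩
    | single x a =>
      obtain ⟨φ, hφ, h⟩ := exists_left b x
      refine ⟨a • ⟨φ, hφ⟩, ?_⟩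
      rw [map_smul]
      change a • φ (Finsupp.single 1 1) = _
      rw [h 1 (by rw [mul_one, len_one, add_zero]), mul_one, Finsupp.smul_single, smul_eq_mul,
        mul_one]

/-- The Iwahori-Hecke algebra of the extended affine Weyl group of a reduced root datum exists. -/
theorem exists_heckeAlg (b : P.Base) : Nonempty (HeckeAlg b) := by
  let ev : hAlg b ≃ₗ[ℤ[T;T⁻¹]] FM P := LinearEquiv.ofBijective (evOne b) (evOne_bijective b)
  let B : Module.Basis (EW P) ℤ[T;T⁻¹] (hAlg b) := Module.Basis.ofRepr ev
  have hB : ∀ x, (B x).1 (Finsupp.single 1 1) = Finsupp.single x 1 := by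
    intro x
    have : ev (B x) = Finsupp.single x 1 := B.repr_self x
    exact this
  have hBact : ∀ x y, len b (x * y) = len b x + len b y →
      (B x).1 (Finsupp.single y 1) = Finsupp.single (x * y) 1 := by
    intro x y hy
    obtain ⟨φ, hφ, h⟩ := exists_left b x
    have e : (B x).1 = φ := by
      refine eq_of_one (B x).2 hφ ?_
      rw [hB, h 1 (by rw [mul_one, len_one, add_zero]), mul_one]
    rw [e, h y hy]
  let rg : Ring (hAlg b) := Algebra.semiringToRing ℤ[T;T⁻¹]
  let al : @Algebra ℤ[T;T⁻¹] (hAlg b) _ rg.toSemiring := (hAlg b).algebra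
  refine ⟨@HeckeAlg.mk ι X Y _ _ P _ b (hAlg b) rg al B ?_ ?_ ?_⟩
  · apply Subtype.ext
    refine eq_of_one (B 1).2 (1 : hAlg b).2 ?_
    rw [hB]; rfl
  · intro x y hxy
    apply Subtype.ext
    refine eq_of_one (B x * B y).2 (B (x * y)).2 ?_
    rw [hB]
    change (B x).1 ((B y).1 (Finsupp.single 1 1)) = _
    rw [hB, hBact x y hxy]
  · intro s hs
    obtain ⟨κ, _, _, _, h4⟩ := simple_data hs
    have e : (B s).1 = lop b s := by
      refine eq_of_one (B s).2 (lop_mem (Or.inl hs)) ?_
      rw [hB, lop_single, mul_one, if_neg, add_zero]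
      rw [hs.2, len_one]; omega
    apply Subtype.ext
    refine eq_of_one (B s * B s).2 (1 + xi • B s).2 ?_
    change (B s).1 ((B s).1 (Finsupp.single 1 1)) = Finsupp.single 1 1 + xi • (B s).1 (Finsupp.single 1 1)
    rw [hB, e, lop_single, h4, if_pos]
    rw [hs.2, len_one]; omega

end Pool.Agent.PPS10
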