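import Pool.Agent.PPS10.Basic

set_option autoImplicit false

/-!
# PPS10/Len (MP_6908e7_al, helper10): the length function
-/

namespace Pool.Agent.PPS10

open scoped Classical

variable {ι X Y : Type} [Fintype ι] [AddCommGroup X] [AddCommGroup Y] {P : RootPairing ι ℤ X Y}

private noncomputable def nrtE (P : RootPairing ι ℤ X Y) : Equiv.Perm ι :=
  ⟨nrt P, nrt P, fun γ => nrt_nrt γ, fun γ => nrt_nrt γ⟩

theorem sum_nrt {M : Type*} [AddCommMonoid M] (P : RootPairing ι ℤ X Y) (f : ι → M) :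
    ∑ γ, f (nrt P γ) = ∑ γ, f γ :=
  Equiv.sum_comp (nrtE P) f

theorem sum_smul {M : Type*} [AddCommMonoid M] (w : P.weylGroup) (f : ι → M) :
    ∑ γ, f (w • γ) = ∑ γ, f γ :=
  Equiv.sum_comp (MulAction.toPerm w) f

theorem len_eq (b : P.Base) (x : EW P) : len b x = ∑ γ : ι, (dd b γ x).toNat := by
  have h1 : ∀ f : ι → ℕ, ∑ γ, f γ = ∑ γ, (if b.IsPos γ then f γ + f (nrt P γ) else 0) := by
    intro f
    have e1 : ∑ γ, f γ = ∑ γ, (if b.IsPos γ then f γ else 0) + ∑ γ, (if b.IsPos γ then 0 else f γ) := by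
      rw [← Finset.sum_add_distrib]
      refine Finset.sum_congr rfl fun γ _ => ?_
      by_cases h : b.IsPos γ <;> simp [h]
    have e2 : ∑ γ, (if b.IsPos γ then 0 else f γ) = ∑ γ, (if b.IsPos γ then f (nrt P γ) else 0) := by
      rw [← sum_nrt P]
      refine Finset.sum_congr rfl fun γ _ => ?_
      by_cases h : b.IsPos γ
      · have : ¬ b.IsPos (nrt P γ) := by rw [isPos_nrt]; exact not_not.mpr h
        simp [h, this]
      · have : b.IsPos (nrt P γ) := by rw [isPos_nrt]; exact h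
        simp [h, this]
    rw [e1, e2, ← Finset.sum_add_distrib]
    refine Finset.sum_congr rfl fun γ _ => ?_
    by_cases h : b.IsPos γ <;> simp [h]
  rw [h1, len]
  refine Finset.sum_congr rfl fun γ _ => ?_
  by_cases h : b.IsPos γ
  · have e : dd b γ x = kf b γ x := by rw [dd, kf_one, ng_of_pos h]; ring
    simp only [h, if_true, dd_nrt, e]
    omega
  · simp [h]

theorem len_one (b : P.Base) : len b (1 : EW P) = 0 := by
  rw [len_eq]
  exact Finset.sum_eq_zero fun γ _ => by simp [dd]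

theorem len_smul_eq (b : P.Base) (w : P.weylGroup) (x : EW P) :
    ∑ γ : ι, (dd b (w • γ) x).toNat = len b x := by
  rw [len_eq]
  exact sum_smul w (fun γ => (dd b γ x).toNat)

theorem len_dist (b : P.Base) (x y : EW P) :
    len b (x⁻¹ * y) = ∑ γ : ι, (kf b γ y - kf b γ x).toNat := by
  rw [← len_smul_eq b x.lin⁻¹]
  refine Finset.sum_congr rfl fun γ _ => ?_
  rw [← kf_mul_sub_self, mul_inv_cancel_left]

theorem len_inv (b : P.Base) (x : EW P) : len b x⁻¹ = len b x := by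
  have h := len_dist b x 1
  rw [mul_one] at h
  rw [h, len_eq, ← sum_nrt P]
  refine Finset.sum_congr rfl fun γ _ => ?_
  rw [kf_nrt, kf_nrt, dd]
  congr 1
  ring

theorem len_mul_le (b : P.Base) (x y : EW P) : len b (x * y) ≤ len b x + len b y := by
  rw [len_eq b (x * y), len_eq b x, ← len_smul_eq b x.lin⁻¹ y, ← Finset.sum_add_distrib]
  refine Finset.sum_le_sum fun γ _ => ?_
  rw [dd_mul]
  omega

theorem len_mul_add {b : P.Base} {x y : EW P}
    (h : ∀ γ, (0 ≤ dd b γ x ∧ 0 ≤ dd b (x.lin⁻¹ • γ) y) ∨ (dd b γ x ≤ 0 ∧ dd b (x.lin⁻¹ • γ) y ≤ 0)) :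
    len b (x * y) = len b x + len b y := by
  rw [len_eq b (x * y), len_eq b x, ← len_smul_eq b x.lin⁻¹ y, ← Finset.sum_add_distrib]
  refine Finset.sum_congr rfl fun γ _ => ?_
  rw [dd_mul]
  rcases h γ with h | h <;> omega

theorem len_add_sign {b : P.Base} {x y : EW P} (h : len b (x * y) = len b x + len b y) (γ : ι) :
    (0 ≤ dd b γ x ∧ 0 ≤ dd b (x.lin⁻¹ • γ) y) ∨ (dd b γ x ≤ 0 ∧ dd b (x.lin⁻¹ • γ) y ≤ 0) := by
  rw [len_eq b (x * y), len_eq b x, ← len_smul_eq b x.lin⁻¹ y, ← Finset.sum_add_distrib] at h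
  have hle : ∀ γ ∈ (Finset.univ : Finset ι),
      (dd b γ (x * y)).toNat ≤ (dd b γ x).toNat + (dd b (x.lin⁻¹ • γ) y).toNat := by
    intro γ _
    rw [dd_mul]
    omega
  have h2 := (Finset.sum_eq_sum_iff_of_le hle).1 h
  have a1 := h2 γ (Finset.mem_univ _)
  have a2 := h2 (nrt P γ) (Finset.mem_univ _)
  rw [smul_nrt, dd_nrt, dd_nrt, dd_nrt] at a2
  rw [dd_mul] at a1 a2
  omega

theorem exists_dd_pos {b : P.Base} {x : EW P} (h : 0 < len b x) : ∃ γ, 0 < dd b γ x := by
  by_contra hc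
  push Not at hc
  rw [len_eq] at h
  have : ∑ γ : ι, (dd b γ x).toNat = 0 := by
    refine Finset.sum_eq_zero fun γ _ => ?_
    have := hc γ
    omega
  omega

theorem dd_eq_zero_of_len {b : P.Base} {x : EW P} (h : len b x = 0) (γ : ι) : dd b γ x = 0 := by
  rw [len_eq] at h
  have h2 := Finset.sum_eq_zero_iff.1 h
  have a1 := h2 γ (Finset.mem_univ _)
  have a2 := h2 (nrt P γ) (Finset.mem_univ _)
  rw [dd_nrt] at a2
  omega

end Pool.Agent.PPS10
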