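import Pool.Agent.PPS10.Step

set_option autoImplicit false

/-!
# PPS10/Main (MP_6908e7_al, helper10): finitely many orbits decide

Dickson's lemma: there is a finite set `F` of coweights, which only depends on the root datum, such that every coweight
is obtained from `F` by the operations `(λ, ν) ↦ λ + w_λ ν`, `ν` antidominant.

helper4 found the same reduction independently (note 1535 of the team database).
-/

namespace Pool.Agent.PPS10

open scoped Classical LaurentPolynomial

variable {ι X Y : Type} [Fintype ι] [AddCommGroup X] [AddCommGroup Y] {P : RootPairing ι ℤ X Y}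

omit [Fintype ι] in
private theorem dickson [Finite ι] {α : Type*} (f : α → (ι → ℕ)) (S : Set α) :
    ∃ F : Finset α, (∀ a ∈ F, a ∈ S) ∧ ∀ a ∈ S, ∃ a₀ ∈ F, f a₀ ≤ f a := by
  set M : Set (ι → ℕ) := {m | Minimal (fun n => n ∈ f '' S) m} with hM
  have hfin : M.Finite := WellQuasiOrderedLE.finite_of_isAntichain (setOf_minimal_antichain _)
  have hch : ∀ m : M, ∃ a ∈ S, f a = m.1 := fun m => m.2.1
  choose g hg1 hg2 using hch
  have : Finite M := hfin
  refine ⟨(Set.finite_range g).toFinset, ?_, ?_⟩
  · intro a ha
    rw [Set.Finite.mem_toFinset] at ha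
    obtain ⟨m, rfl⟩ := ha
    exact hg1 m
  · intro a ha
    obtain ⟨m, hm1, hm2⟩ := exists_minimal_le_of_wellFoundedLT (fun n => n ∈ f '' S) (f a) ⟨a, ha, rfl⟩
    refine ⟨g ⟨m, hm2⟩, ?_, ?_⟩
    · rw [Set.Finite.mem_toFinset]
      exact ⟨_, rfl⟩
    · rw [hg2]
      exact hm1

/-- The coordinates `-⟨wα_i, λ⟩`. -/
private noncomputable def phi (b : P.Base) (w : P.weylGroup) (lam : Y) (i : ι) : ℕ :=
  if i ∈ b.support then (-P.toLinearMap (P.root (w • i)) lam).toNat else 0

private theorem phi_le {b : P.Base} {w : P.weylGroup} {lam lam' : Y} (h : phi b w lam' ≤ phi b w lam)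
    (h1 : ∀ i ∈ b.support, P.toLinearMap (P.root (w • i)) lam ≤ 0)
    (h2 : ∀ i ∈ b.support, P.toLinearMap (P.root (w • i)) lam' ≤ 0) :
    Anti b (cw P w⁻¹ (lam - lam')) := by
  intro i hi
  rw [pair_root_cw, inv_inv, map_sub]
  have h3 := h i
  simp only [phi, if_pos hi] at h3
  have := h1 i hi
  have := h2 i hi
  omega

variable [P.IsReduced]

private theorem wl_nonpos (b : P.Base) (lam : Y) {i : ι} (hi : i ∈ b.support) :
    P.toLinearMap (P.root (wl b lam • i)) lam ≤ 0 := by
  have h := wl_ineq b lam (RootPairing.Base.isPos_of_mem_support hi)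
  rcases ng_cases b (wl b lam • i) with ⟨_, e⟩ | ⟨_, e⟩ <;> rw [e] at h <;> omega

theorem isPerverse_zero {b : P.Base} {A : HeckeAlg b} (E : ParitySystem A) {nu : Y}
    (h : ∀ γ, P.toLinearMap (P.root γ) nu = 0) : E.IsPerverse nu := by
  have hanti : Anti b nu := fun i _ => le_of_eq (h i)
  have hdim : dimS b nu = 0 := by
    rw [dimS, xmin_anti hanti, len]
    refine Finset.sum_eq_zero fun γ _ => ?_
    by_cases c : b.IsPos γ
    · rw [if_pos c, kf, h]
      simp [ng_of_pos c]
    · rw [if_neg c]
  intro kap
  by_cases c : E.h nu kap = 0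
  · rw [c]; exact Bd.zero 0
  · rcases E.supp nu kap c with h1 | h1
    · rw [h1, E.diag]; exact Bd.one
    · omega

/-- There is a finite set of coweights, depending only on the root datum, which decides perversity. -/
theorem exists_finite_test (b : P.Base) : ∃ F : Finset Y, ∀ (A : HeckeAlg b) (E : ParitySystem A),
    (∀ lam ∈ F, E.IsPerverse lam) → ∀ lam, E.IsPerverse lam := by
  have := finite_weyl b
  let _ := Fintype.ofFinite P.weylGroup
  -- the generators of the antidominant coweights
  obtain ⟨F₀, hF₀, hF₀'⟩ := dickson (phi b 1) {nu : Y | Anti b nu ∧ phi b 1 nu ≠ 0}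
  have hF := fun w : P.weylGroup => dickson (phi b w) {lam : Y | wl b lam = w}
  choose F hF1 hF2 using hF
  refine ⟨F₀ ∪ Finset.univ.biUnion F, fun A E hE => ?_⟩
  -- antidominant coweights
  have key : ∀ n : ℕ, ∀ nu : Y, Anti b nu → ∑ i, phi b 1 nu i = n → E.IsPerverse nu := by
    intro n
    induction n using Nat.strong_induction_on with
    | _ n ih =>
      intro nu hnu hn
      by_cases c : phi b 1 nu = 0
      · apply isPerverse_zero
        have hsimple : ∀ i ∈ b.support, P.toLinearMap (P.root i) nu = 0 := by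
          intro i hi
          have h1 := hnu i hi
          have h2 := congrFun c i
          simp only [phi, if_pos hi, one_smul, Pi.zero_apply] at h2
          omega
        intro γ
        refine b.induction_add γ (p := fun γ => P.toLinearMap (P.root γ) nu = 0) ?_ hsimple ?_
        · intro i hi
          change P.toLinearMap (P.root (nrt P i)) nu = 0
          rw [root_nrt, map_neg, LinearMap.neg_apply, hi, neg_zero]
        · intro i j k hk hi hj
          rw [hk, map_add, LinearMap.add_apply, hi, hsimple j hj, add_zero]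
      · obtain ⟨nu₀, h1, h2⟩ := hF₀' nu ⟨hnu, c⟩
        obtain ⟨h3, h4⟩ := hF₀ nu₀ h1
        set nu₁ := cw P (1 : P.weylGroup)⁻¹ (nu - nu₀) with hnu₁
        have e1 : nu₁ = nu - nu₀ := by rw [hnu₁, inv_one, cw_one]
        have hanti : Anti b nu₁ := phi_le h2 (fun i hi => by rw [one_smul]; exact hnu i hi)
          (fun i hi => by rw [one_smul]; exact h3 i hi)
        have e2 : nu = nu₀ + cw P (wl b nu₀) nu₁ := by
          rw [wl_anti h3, cw_one, e1]; abel
        have hadd : ∀ i, phi b 1 nu i = phi b 1 nu₀ i + phi b 1 nu₁ i := by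
          intro i
          by_cases hi : i ∈ b.support
          · have a1 := h3 i hi
            have a2 := hanti i hi
            have a3 : P.toLinearMap (P.root i) nu =
                P.toLinearMap (P.root i) nu₀ + P.toLinearMap (P.root i) nu₁ := by
              rw [← map_add, e1, add_sub_cancel]
            simp only [phi, if_pos hi, one_smul]
            omega
          · simp only [phi, if_neg hi]
        have hpos : 0 < ∑ i, phi b 1 nu₀ i := by
          by_contra hc
          have h0 : ∑ i, phi b 1 nu₀ i = 0 := by omega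
          apply h4
          funext i
          exact (Finset.sum_eq_zero_iff.1 h0) i (Finset.mem_univ i)
        have hsum : ∑ i, phi b 1 nu i = ∑ i, phi b 1 nu₀ i + ∑ i, phi b 1 nu₁ i := by
          rw [← Finset.sum_add_distrib]
          exact Finset.sum_congr rfl fun i _ => hadd i
        rw [e2]
        refine step E hanti (hE nu₀ (Finset.mem_union_left _ h1)) ?_
        exact ih (∑ i, phi b 1 nu₁ i) (by omega) nu₁ hanti rfl
  intro lam
  obtain ⟨lam₀, h1, h2⟩ := hF2 (wl b lam) lam rfl
  have h3 : wl b lam₀ = wl b lam := hF1 _ lam₀ h1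
  have hanti : Anti b (cw P (wl b lam)⁻¹ (lam - lam₀)) :=
    phi_le h2 (fun i hi => wl_nonpos b lam hi) (fun i hi => by rw [← h3]; exact wl_nonpos b lam₀ hi)
  have e2 : lam = lam₀ + cw P (wl b lam₀) (cw P (wl b lam)⁻¹ (lam - lam₀)) := by
    rw [h3, ← cw_mul, mul_inv_cancel, cw_one]; abel
  rw [e2]
  refine step E hanti (hE lam₀ (Finset.mem_union_right _ (Finset.mem_biUnion.2
    ⟨_, Finset.mem_univ _, h1⟩))) ?_
  exact key _ _ hanti rfl

end Pool.Agent.PPS10
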