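import Pool.Agent.PPS10.Sph

set_option autoImplicit false

/-!
# PPS10/Parity (MP_6908e7_al, helper10): parity systems
-/

namespace Pool.Agent.PPS10

open scoped Classical LaurentPolynomial

variable {ι X Y : Type} [Fintype ι] [AddCommGroup X] [AddCommGroup Y] {P : RootPairing ι ℤ X Y}
  {b : P.Base}

variable [P.IsReduced] {A : HeckeAlg b}

/-- `T_t C = v⁻¹ C` for the simple reflections `t` of the finite Weyl group. -/
theorem simple_mul_cW {i : ι} (hi : IsSimple b (affRefl P i 0)) :
    A.Ts (affRefl P i 0) * cW A = (LaurentPolynomial.T (-1) : ℤ[T;T⁻¹]) • cW A := by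
  have := finite_weyl b
  let _ := Fintype.ofFinite P.weylGroup
  obtain ⟨κ, h1, h2, h3, h4⟩ := simple_data hi
  set r : P.weylGroup := RootPairing.weylGroup.ofIdx P i with hr
  have hrr : r * r = 1 := ofIdx_mul_self i
  have e0 : ∀ u : P.weylGroup, affRefl P i 0 * fin u = (fin (r * u) : EW P) := by
    intro u
    rw [affRefl_zero, fin, mk_mul_fin]; rfl
  have hmul : ∀ u : P.weylGroup, A.Ts (affRefl P i 0) * A.Ts (fin u) =
      A.Ts (fin (r * u)) + (if 0 < dd b κ (fin u : EW P) then xi • A.Ts (fin u) else 0) := by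
    intro u
    by_cases c : 0 < dd b κ (fin u : EW P)
    · rw [if_pos c]
      have hl := len_simple_mul_down hi h1 h2 h3 h4 c
      have e1 : A.Ts (fin u) = A.Ts (affRefl P i 0) * A.Ts (fin (r * u)) := by
        rw [A.mul_len]
        · rw [← e0, ← mul_assoc, h4, one_mul]
        · rw [← e0, ← mul_assoc, h4, one_mul, hi.2]
          omega
      conv_lhs => rw [e1]
      rw [← mul_assoc, A.mul_sq _ hi, add_mul, one_mul, smul_mul_assoc, ← e1]
    · rw [if_neg c, add_zero, A.mul_len, e0]
      exact len_simple_mul_up h1 h2 h4 (by omega)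
  have hlen : ∀ u : P.weylGroup, (len b (fin (r * u) : EW P) : ℤ) =
      len b (fin u : EW P) + (if 0 < dd b κ (fin u : EW P) then -1 else 1) := by
    intro u
    by_cases c : 0 < dd b κ (fin u : EW P)
    · have hl := len_simple_mul_down hi h1 h2 h3 h4 c
      rw [e0] at hl
      rw [if_pos c]; omega
    · have hl := len_simple_mul_up h1 h2 h4 (y := (fin u : EW P)) (by omega)
      rw [e0, hi.2] at hl
      rw [if_neg c]; omega
  rw [cW_eq, Finset.mul_sum, Finset.smul_sum]
  have e1 : ∑ u : P.weylGroup, A.Ts (affRefl P i 0) *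
      ((LaurentPolynomial.T (npos b - len b (fin u : EW P)) : ℤ[T;T⁻¹]) • A.Ts (fin u)) =
      ∑ u : P.weylGroup, ((LaurentPolynomial.T (npos b - len b (fin (r * u) : EW P)) : ℤ[T;T⁻¹]) +
        (if 0 < dd b κ (fin u : EW P) then
          xi * LaurentPolynomial.T (npos b - len b (fin u : EW P)) else 0)) • A.Ts (fin u) := by
    have e2 : ∑ u : P.weylGroup,
        (LaurentPolynomial.T (npos b - len b (fin (r * u) : EW P)) : ℤ[T;T⁻¹]) • A.Ts (fin u) =
        ∑ u : P.weylGroup,
        (LaurentPolynomial.T (npos b - len b (fin u : EW P)) : ℤ[T;T⁻¹]) • A.Ts (fin (r * u)) := by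
      rw [← Equiv.sum_comp (Equiv.mulLeft r)]
      refine Finset.sum_congr rfl fun u _ => ?_
      simp only [Equiv.coe_mulLeft]
      rw [← mul_assoc, hrr, one_mul]
    simp_rw [add_smul]
    rw [Finset.sum_add_distrib, e2, ← Finset.sum_add_distrib]
    refine Finset.sum_congr rfl fun u _ => ?_
    rw [mul_smul_comm, hmul, smul_add]
    congr 1
    split
    · rw [smul_smul, mul_comm]
    · simp
  rw [e1]
  refine Finset.sum_congr rfl fun u _ => ?_
  rw [smul_smul]
  congr 1
  rw [hlen]
  split
  · unfold xi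
    rw [sub_mul, ← LaurentPolynomial.T_add, ← LaurentPolynomial.T_add]
    have e3 : npos b - (↑(len b (fin u : EW P)) + -1) = 1 + (npos b - ↑(len b (fin u : EW P))) := by
      ring
    rw [e3]
    ring
  · rw [add_zero, ← LaurentPolynomial.T_add]
    congr 1
    ring

/-- The left action of a finite simple reflection on the standard basis of the spherical module. -/
theorem wl_refl {i : ι} (hi : i ∈ b.support) {kap : Y}
    (hne : P.toLinearMap (P.root i) kap ≠ 0) :
    wl b (cw P (RootPairing.weylGroup.ofIdx P i) kap) = RootPairing.weylGroup.ofIdx P i * wl b kap := by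
  refine (wl_unique b _ fun γ hγ => ?_).symm
  rw [mul_inv_rev, mul_smul, ofIdx_inv, ofIdx_smul, pair_root_cw, ofIdx_inv, ofIdx_smul]
  by_cases e : γ = i
  · subst e
    rw [refl_self, smul_nrt, isPos_nrt, not_not, root_nrt, map_neg, LinearMap.neg_apply]
    have := wl_spec b kap hγ
    constructor
    · intro h
      have h2 := mt this.2 (not_not.mpr h)
      omega
    · intro h
      by_contra hc
      have := this.1 hc
      omega
  · exact wl_spec b kap (RootPairing.Base.IsPos.reflectionPerm hγ hi e)

theorem simple_mul_mstd_pos {i : ι} (hi : i ∈ b.support) {kap : Y}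
    (hpos : 0 < P.toLinearMap (P.root i) kap) :
    dimS b (cw P (RootPairing.weylGroup.ofIdx P i) kap) = dimS b kap + 1 ∧
    A.Ts (affRefl P i 0) * mstd A kap =
      mstd A (cw P (RootPairing.weylGroup.ofIdx P i) kap) := by
  obtain ⟨hs, h1⟩ := simple_finite b hi
  obtain ⟨h2, h3, h4⟩ := simple_props hs h1
  have hiP : b.IsPos i := RootPairing.Base.isPos_of_mem_support hi
  have hx : xmin b (cw P (RootPairing.weylGroup.ofIdx P i) kap) = affRefl P i 0 * xmin b kap := by
    rw [xmin, wl_refl hi (by omega), affRefl_zero]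
    apply EW.ext
    · simp [fin, xmin]
    · rfl
  have hl : len b (affRefl P i 0 * xmin b kap) = len b (affRefl P i 0) + len b (xmin b kap) := by
    refine len_simple_mul_up h1 h2 h4 ?_
    rw [dd_nrt, dd_eq, ng_of_pos hiP]
    simp only [xmin]
    rw [ng_of_neg ((wl_spec b kap hiP).2 hpos)]
    omega
  refine ⟨?_, ?_⟩
  · rw [dimS, hx, hl, hs.2, dimS]; omega
  · rw [mstd, mstd, hx, ← mul_assoc, A.mul_len _ _ hl]

theorem simple_mul_mstd_neg {i : ι} (hi : i ∈ b.support) {kap : Y}
    (hneg : P.toLinearMap (P.root i) kap < 0) :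
    dimS b (cw P (RootPairing.weylGroup.ofIdx P i) kap) + 1 = dimS b kap ∧
    A.Ts (affRefl P i 0) * mstd A kap =
      mstd A (cw P (RootPairing.weylGroup.ofIdx P i) kap) + xi • mstd A kap := by
  obtain ⟨hs, h1⟩ := simple_finite b hi
  set kap' := cw P (RootPairing.weylGroup.ofIdx P i) kap with hk
  have hkk : cw P (RootPairing.weylGroup.ofIdx P i) kap' = kap := by
    rw [hk, ← cw_mul, ofIdx_mul_self, cw_one]
  have hpos : 0 < P.toLinearMap (P.root i) kap' := by
    rw [hk, pair_root_cw, ofIdx_inv, ofIdx_smul, refl_self, root_nrt, map_neg,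
      LinearMap.neg_apply]
    omega
  obtain ⟨h5, h6⟩ := simple_mul_mstd_pos (A := A) hi hpos
  rw [hkk] at h5 h6
  refine ⟨h5.symm, ?_⟩
  rw [← h6, ← mul_assoc, A.mul_sq _ hs, add_mul, one_mul, smul_mul_assoc]

theorem simple_mul_mstd_zero {i : ι} (hi : i ∈ b.support) {kap : Y}
    (h0 : P.toLinearMap (P.root i) kap = 0) :
    A.Ts (affRefl P i 0) * mstd A kap = (LaurentPolynomial.T (-1) : ℤ[T;T⁻¹]) • mstd A kap := by
  obtain ⟨hs, h1⟩ := simple_finite b hi
  obtain ⟨h2, h3, h4⟩ := simple_props hs h1
  have hiP : b.IsPos i := RootPairing.Base.isPos_of_mem_support hi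
  have hpos : b.IsPos ((wl b kap)⁻¹ • i) := by
    by_contra hc
    have := (wl_spec b kap hiP).1 hc
    omega
  have hfix : cw P (RootPairing.weylGroup.ofIdx P i) kap = kap := by
    rw [cw_ofIdx, RootPairing.coreflection_apply]
    have : P.root' i kap = 0 := h0
    rw [this, zero_smul, sub_zero]
  set j := (wl b kap)⁻¹ • i with hj
  have hconj : RootPairing.weylGroup.ofIdx P i * wl b kap =
      wl b kap * RootPairing.weylGroup.ofIdx P j := by
    have := conj_ofIdx (wl b kap) j
    rw [hj, smul_inv_smul, ← hj] at this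
    rw [← this]
    group
  have hx : affRefl P i 0 * xmin b kap = xmin b kap * affRefl P j 0 := by
    rw [affRefl_zero, affRefl_zero]
    apply EW.ext
    · simp [fin, xmin, hfix]
    · exact hconj
  have hl : len b (affRefl P i 0 * xmin b kap) = len b (affRefl P i 0) + len b (xmin b kap) := by
    refine len_simple_mul_up h1 h2 h4 ?_
    rw [dd_nrt, dd_eq, ng_of_pos hiP]
    simp only [xmin]
    rw [ng_of_pos hpos, h0]
    omega
  have hl2 : len b (xmin b kap * affRefl P j 0) = len b (xmin b kap) + len b (affRefl P j 0) := by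
    rw [affRefl_zero]
    exact len_xmin_fin b kap _
  have hjs : IsSimple b (affRefl P j 0) := by
    refine ⟨⟨j, 0, rfl⟩, ?_⟩
    rw [hx] at hl
    have := hs.2
    omega
  rw [mstd, ← mul_assoc, A.mul_len _ _ hl, hx, ← A.mul_len _ _ hl2, mul_assoc, simple_mul_cW hjs,
    mul_smul_comm]

/-- `E(S_ν)` is left spherical for antidominant `ν`. -/
theorem ParitySystem.spherical (E : ParitySystem A) {nu : Y} (hnu : Anti b nu) {i : ι}
    (hi : i ∈ b.support) :
    A.Ts (affRefl P i 0) * ch A E.h nu = (LaurentPolynomial.T (-1) : ℤ[T;T⁻¹]) • ch A E.h nu := by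
  set r : P.weylGroup := RootPairing.weylGroup.ofIdx P i with hr
  set σ : Y → Y := fun kap => cw P r kap with hσ
  have hσσ : ∀ kap, σ (σ kap) = kap := by
    intro kap
    simp only [hσ]
    rw [← cw_mul, hr, ofIdx_mul_self, cw_one]
  -- the support is stable
  have hsupp : ∀ kap ∈ (E.h nu).support, σ kap ∈ (E.h nu).support := by
    intro kap hk
    rw [Finsupp.mem_support_iff] at hk ⊢
    intro h0
    have := E.constr nu hnu r kap
    change LaurentPolynomial.T (dimS b (σ kap)) * E.h nu (σ kap) = _ at this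
    rw [h0, mul_zero] at this
    apply hk
    have h2 := congrArg (fun z => LaurentPolynomial.T (-(dimS b kap : ℤ)) * z) this
    simp only [mul_zero] at h2
    rw [← mul_assoc, ← LaurentPolynomial.T_add, neg_add_cancel, LaurentPolynomial.T_zero,
      one_mul] at h2
    exact h2.symm
  have hval : ∀ kap, E.h nu (σ kap) =
      LaurentPolynomial.T ((dimS b kap : ℤ) - dimS b (σ kap)) * E.h nu kap := by
    intro kap
    have := E.constr nu hnu r kap
    change LaurentPolynomial.T (dimS b (σ kap)) * E.h nu (σ kap) = _ at this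
    have h2 := congrArg (fun z => LaurentPolynomial.T (-(dimS b (σ kap) : ℤ)) * z) this
    rw [← mul_assoc, ← LaurentPolynomial.T_add, neg_add_cancel, LaurentPolynomial.T_zero,
      one_mul, ← mul_assoc, ← LaurentPolynomial.T_add] at h2
    rw [h2]
    congr 2
    ring
  have ha : ∀ kap, P.toLinearMap (P.root i) (σ kap) = -P.toLinearMap (P.root i) kap := by
    intro kap
    simp only [hσ]
    rw [pair_root_cw, hr, ofIdx_inv, ofIdx_smul, refl_self, root_nrt, map_neg, LinearMap.neg_apply]
  have hbij : ∑ kap ∈ (E.h nu).support,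
      (if P.toLinearMap (P.root i) kap = 0 then 0 else E.h nu kap • mstd A (σ kap)) =
      ∑ kap ∈ (E.h nu).support,
      (if P.toLinearMap (P.root i) kap = 0 then 0 else E.h nu (σ kap) • mstd A kap) := by
    refine Finset.sum_bij' (fun kap _ => σ kap) (fun kap _ => σ kap) hsupp hsupp
      (fun kap _ => hσσ kap) (fun kap _ => hσσ kap) ?_
    intro kap _
    simp only [hσσ, ha, neg_eq_zero]
  rw [ch, Finsupp.sum, Finset.mul_sum, Finset.smul_sum]
  have e1 : ∀ kap ∈ (E.h nu).support, A.Ts (affRefl P i 0) * (E.h nu kap • mstd A kap) =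
      (if P.toLinearMap (P.root i) kap = 0 then 0 else E.h nu kap • mstd A (σ kap)) +
      (if P.toLinearMap (P.root i) kap = 0 then
        (LaurentPolynomial.T (-1) * E.h nu kap) • mstd A kap
        else if P.toLinearMap (P.root i) kap < 0 then (xi * E.h nu kap) • mstd A kap else 0) := by
    intro kap _
    rw [mul_smul_comm]
    rcases lt_trichotomy (P.toLinearMap (P.root i) kap) 0 with h | h | h
    · rw [if_neg (by omega), if_neg (by omega), if_pos h, (simple_mul_mstd_neg hi h).2, smul_add,
        smul_smul, mul_comm xi]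
    · rw [if_pos h, if_pos h, zero_add, simple_mul_mstd_zero hi h, smul_smul, mul_comm]
    · rw [if_neg (by omega), if_neg (by omega), if_neg (by omega), add_zero,
        (simple_mul_mstd_pos hi h).2]
  rw [Finset.sum_congr rfl e1, Finset.sum_add_distrib, hbij, ← Finset.sum_add_distrib]
  refine Finset.sum_congr rfl fun kap _ => ?_
  rcases lt_trichotomy (P.toLinearMap (P.root i) kap) 0 with h | h | h
  · rw [if_neg (by omega), if_neg (by omega), if_pos h, hval, smul_smul, ← add_smul]
    congr 1
    have h5 := (simple_mul_mstd_neg (A := A) hi h).1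
    have h6 : (dimS b kap : ℤ) - dimS b (σ kap) = 1 := by
      simp only [hσ, hr]; omega
    rw [h6]
    unfold xi
    ring
  · rw [if_pos h, if_pos h, zero_add, smul_smul]
  · rw [if_neg (by omega), if_neg (by omega), if_neg (by omega), add_zero, hval, smul_smul]
    congr 1
    have h5 := (simple_mul_mstd_pos (A := A) hi h).1
    have h6 : (dimS b kap : ℤ) - dimS b (σ kap) = -1 := by
      simp only [hσ, hr]; omega
    rw [h6]

end Pool.Agent.PPS10
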