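import Pool.Agent.PPS10.Descent

set_option autoImplicit false

/-!
# PPS10/Pot (MP_6908e7_al, helper10): the potential which bounds the number of folds
-/

namespace Pool.Agent.PPS10

open scoped Classical

variable {ι X Y : Type} [Fintype ι] [AddCommGroup X] [AddCommGroup Y] {P : RootPairing ι ℤ X Y}

/-- The indicator function of `0 < d_δ(y)`. -/
noncomputable def fpos (b : P.Base) (y : EW P) (δ : ι) : ℤ := if 0 < dd b δ y then 1 else 0

/-- The indicator function of `d_{uδ}(u) < 0`. -/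
noncomputable def gneg (b : P.Base) (u : EW P) (δ : ι) : ℤ := if dd b (u.lin • δ) u < 0 then 1 else 0

/-- The potential of the pair `(u, y)`: the number of roots `δ` with `d_δ(y) > 0` and `d_{uδ}(u) < 0`. -/
noncomputable def pot (b : P.Base) (u y : EW P) : ℤ := ∑ δ : ι, fpos b y δ * gneg b u δ

omit [Fintype ι] in
theorem fpos_nonneg (b : P.Base) (y : EW P) (δ : ι) : 0 ≤ fpos b y δ := by
  unfold fpos; split <;> norm_num

omit [Fintype ι] in
theorem gneg_nonneg (b : P.Base) (y : EW P) (δ : ι) : 0 ≤ gneg b y δ := by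
  unfold gneg; split <;> norm_num

theorem pot_nonneg (b : P.Base) (u y : EW P) : 0 ≤ pot b u y :=
  Finset.sum_nonneg fun δ _ => mul_nonneg (fpos_nonneg b y δ) (gneg_nonneg b u δ)

theorem pot_le (b : P.Base) (u y : EW P) : pot b u y ≤ npos b := by
  have h1 : ∑ δ : ι, gneg b u δ = ∑ δ : ι, (if dd b δ u < 0 then 1 else 0) :=
    sum_smul u.lin (fun δ => if dd b δ u < 0 then (1 : ℤ) else 0)
  have h2 : 2 * ∑ δ : ι, (if dd b δ u < 0 then (1 : ℤ) else 0) ≤ 2 * npos b := by
    have e1 : 2 * ∑ δ : ι, (if dd b δ u < 0 then (1 : ℤ) else 0) =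
        ∑ δ : ι, ((if dd b δ u < 0 then 1 else 0) + (if dd b (nrt P δ) u < 0 then 1 else 0)) := by
      rw [Finset.sum_add_distrib, sum_nrt P (fun δ => if dd b δ u < 0 then (1 : ℤ) else 0)]
      ring
    have e2 : 2 * npos b = ∑ δ : ι, ((if b.IsPos δ then 1 else 0) +
        (if b.IsPos (nrt P δ) then 1 else 0)) := by
      rw [Finset.sum_add_distrib, sum_nrt P (fun δ => if b.IsPos δ then (1 : ℤ) else 0), npos]
      ring
    rw [e1, e2]
    refine Finset.sum_le_sum fun δ _ => ?_
    rw [dd_nrt, isPos_nrt]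
    by_cases h : b.IsPos δ <;> simp only [h, if_true, if_false, not_true, not_false_iff] <;>
    (split <;> split <;> omega)
  have h3 : pot b u y ≤ ∑ δ : ι, gneg b u δ := by
    refine Finset.sum_le_sum fun δ _ => ?_
    have := gneg_nonneg b u δ
    unfold fpos
    split <;> omega
  omega

theorem pot_unfold {b : P.Base} {s : EW P} (hs : IsSimple b s) {κ : ι} (h1 : dd b κ s = 1)
    (u : EW P) {y : EW P} (hy : 0 < dd b κ y) : pot b (u * s) (s * y) ≤ pot b u y := by
  obtain ⟨h2, h3, h4⟩ := simple_props hs h1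
  have e : pot b (u * s) (s * y) =
      ∑ δ : ι, fpos b (s * y) (s.lin • δ) * gneg b (u * s) (s.lin • δ) :=
    (sum_smul s.lin (fun δ => fpos b (s * y) δ * gneg b (u * s) δ)).symm
  rw [e]
  refine Finset.sum_le_sum fun δ _ => ?_
  have hinv : s.lin⁻¹ = s.lin := by rw [← inv_lin, simple_inv h4]
  have hss : ∀ ε : ι, s.lin • s.lin • ε = ε := by
    intro ε
    rw [h3, h3, refl_refl]
  have a1 : dd b (s.lin • δ) (s * y) = dd b (s.lin • δ) s + dd b δ y := by
    rw [dd_mul, hinv, hss]
  have a2 : dd b ((u * s).lin • s.lin • δ) (u * s) = dd b (u.lin • δ) u + dd b δ s := by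
    rw [dd_mul, mul_lin, mul_smul, hss, inv_smul_smul]
  have a3 : dd b (s.lin • δ) s = -dd b δ s := by
    have := dd_mul b (s.lin • δ) s s
    rw [h4, dd_one, hinv, hss] at this
    omega
  unfold fpos gneg
  rw [a1, a2, a3]
  by_cases c1 : δ = κ
  · subst c1
    rw [h1]
    have hs1 : s.lin • δ = nrt P δ := by rw [h3]; rfl
    split_ifs <;> omega
  · by_cases c2 : δ = nrt P κ
    · subst c2
      rw [dd_nrt, dd_nrt, h1]
      split_ifs <;> omega
    · rw [h2 δ c1 c2]
      simp

theorem pot_fold {b : P.Base} {s : EW P} (hs : IsSimple b s) {κ : ι} (h1 : dd b κ s = 1)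
    {u y : EW P} (hy : 0 < dd b κ y) (hu : dd b (u.lin • κ) u < 0) :
    pot b u (s * y) + 1 ≤ pot b u y := by
  obtain ⟨h2, h3, h4⟩ := simple_props hs h1
  have hinv : s.lin⁻¹ = s.lin := by rw [← inv_lin, simple_inv h4]
  set σ : ι → ι := fun δ => s.lin • δ with hσ
  have hσσ : ∀ δ, σ (σ δ) = δ := by
    intro δ
    simp only [hσ, h3, refl_refl]
  have hsum : ∀ F : ι → ℤ, ∑ δ, F (σ δ) = ∑ δ, F δ := fun F => sum_smul s.lin F
  set f := fpos b y with hf
  set g := gneg b u with hg
  have hσκ : σ κ = nrt P κ := by simp only [hσ, h3]; rfl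
  have hfκ : f κ = 1 := by simp only [hf, fpos]; rw [if_pos hy]
  have hfnκ : f (nrt P κ) = 0 := by simp only [hf, fpos, dd_nrt]; rw [if_neg (by omega)]
  have hgκ : g κ = 1 := by simp only [hg, gneg]; rw [if_pos hu]
  have hgnκ : g (nrt P κ) = 0 := by simp only [hg, gneg, smul_nrt, dd_nrt]; rw [if_neg (by omega)]
  have e1 : pot b u (s * y) = ∑ δ, f (σ δ) * g δ := by
    refine Finset.sum_congr rfl fun δ _ => ?_
    have a1 : dd b δ (s * y) = dd b δ s + dd b (σ δ) y := by rw [dd_mul, hinv]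
    by_cases c1 : δ = κ
    · subst c1
      rw [hσκ, hfnκ, zero_mul]
      unfold fpos
      rw [a1, hσκ, dd_nrt, h1, if_neg (by omega), zero_mul]
    · by_cases c2 : δ = nrt P κ
      · subst c2
        change _ * g (nrt P κ) = _
        rw [hgnκ, mul_zero, mul_zero]
      · unfold fpos
        rw [a1, h2 δ c1 c2, zero_add]
        rfl
  have e2 : pot b u y = ∑ δ, f δ * g δ := rfl
  have key : ∀ δ, 0 ≤ (f δ - f (σ δ)) * (g δ - g (σ δ)) := by
    have mono : ∀ δ δ' : ι, ∀ m : ℤ, 1 ≤ m → P.root δ = P.root δ' + m • P.root κ →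
        f δ' ≤ f δ ∧ g δ' ≤ g δ := by
      intro δ δ' m hm hr
      constructor
      · simp only [hf, fpos]
        by_cases c : 0 < dd b δ' y
        · have := kf_lt_add b hm hr (A := 1) (E := y) (by unfold dd at c; omega)
            (by unfold dd at hy; omega)
          have c' : 0 < dd b δ y := by unfold dd; omega
          rw [if_pos c, if_pos c']
        · rw [if_neg c]; split <;> norm_num
      · simp only [hg, gneg]
        by_cases c : dd b (u.lin • δ') u < 0
        · have := kf_lt_add b hm (root_smul_lin u.lin hr) (A := u) (E := 1)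
            (by unfold dd at c; omega) (by unfold dd at hu; omega)
          have c' : dd b (u.lin • δ) u < 0 := by unfold dd; omega
          rw [if_pos c, if_pos c']
        · rw [if_neg c]; split <;> norm_num
    intro δ
    have hr : P.root (σ δ) = P.root δ + (-P.pairing δ κ) • P.root κ := by
      simp only [hσ, h3]; exact root_refl κ δ
    rcases lt_trichotomy (P.pairing δ κ) 0 with hm | hm | hm
    · have := mono (σ δ) δ (-P.pairing δ κ) (by omega) hr
      nlinarith [this.1, this.2]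
    · rw [hm, neg_zero, zero_smul, add_zero] at hr
      rw [P.root.injective hr]
      simp
    · have := mono δ (σ δ) (P.pairing δ κ) (by omega) (by rw [hr]; module)
      nlinarith [this.1, this.2]
  have e3 : ∑ δ, (f δ - f (σ δ)) * (g δ - g (σ δ)) = 2 * (∑ δ, f δ * g δ) - 2 * ∑ δ, f (σ δ) * g δ := by
    have t1 : ∑ δ, f (σ δ) * g (σ δ) = ∑ δ, f δ * g δ := hsum (fun δ => f δ * g δ)
    have t2 : ∑ δ, f δ * g (σ δ) = ∑ δ, f (σ δ) * g δ := by
      rw [← hsum (fun δ => f δ * g (σ δ))]
      refine Finset.sum_congr rfl fun δ _ => ?_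
      rw [hσσ]
    have t3 : ∑ δ, (f δ - f (σ δ)) * (g δ - g (σ δ)) =
        ∑ δ, f δ * g δ - ∑ δ, f δ * g (σ δ) - ∑ δ, f (σ δ) * g δ + ∑ δ, f (σ δ) * g (σ δ) := by
      rw [← Finset.sum_sub_distrib, ← Finset.sum_sub_distrib, ← Finset.sum_add_distrib]
      refine Finset.sum_congr rfl fun δ _ => ?_
      ring
    rw [t3, t1, t2]; ring
  have e4 : (1 : ℤ) ≤ ∑ δ, (f δ - f (σ δ)) * (g δ - g (σ δ)) := by
    have h := Finset.single_le_sum (f := fun δ => (f δ - f (σ δ)) * (g δ - g (σ δ)))
      (fun δ _ => key δ) (Finset.mem_univ κ)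
    simp only [hσκ, hfκ, hfnκ, hgκ, hgnκ] at h
    simpa using h
  rw [e1, e2]
  omega

end Pool.Agent.PPS10
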