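import Pool.Agent.PPS10.Len

set_option autoImplicit false

/-!
# PPS10/Simple (MP_6908e7_al, helper10): simple reflections
-/

namespace Pool.Agent.PPS10

open scoped Classical

variable {ι X Y : Type} [AddCommGroup X] [AddCommGroup Y] {P : RootPairing ι ℤ X Y}

theorem root_refl (γ β : ι) :
    P.root (P.reflectionPerm γ β) = P.root β + (-P.pairing β γ) • P.root γ := by
  rw [RootPairing.root_reflectionPerm, RootPairing.reflection_apply_root]
  simp [sub_eq_add_neg]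

theorem ofIdx_smul (γ β : ι) : RootPairing.weylGroup.ofIdx P γ • β = P.reflectionPerm γ β := rfl

theorem refl_refl (γ β : ι) : P.reflectionPerm γ (P.reflectionPerm γ β) = β := by simp

theorem refl_nrt_left (γ β : ι) : P.reflectionPerm (nrt P γ) β = P.reflectionPerm γ β := by
  apply P.root.injective
  rw [root_refl, root_refl, root_nrt]
  simp [nrt]

theorem refl_self (γ : ι) : P.reflectionPerm γ γ = nrt P γ := rfl

theorem refl_nrt_right (γ β : ι) : P.reflectionPerm γ (nrt P β) = nrt P (P.reflectionPerm γ β) :=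
  smul_nrt (RootPairing.weylGroup.ofIdx P γ) β

theorem ofIdx_inv (γ : ι) :
    (RootPairing.weylGroup.ofIdx P γ)⁻¹ = RootPairing.weylGroup.ofIdx P γ :=
  Subtype.ext (RootPairing.Equiv.reflection_inv P γ)

theorem ofIdx_mul_self (γ : ι) :
    RootPairing.weylGroup.ofIdx P γ * RootPairing.weylGroup.ofIdx P γ = 1 := by
  have h := inv_mul_cancel (RootPairing.weylGroup.ofIdx P γ)
  rwa [ofIdx_inv] at h

theorem cw_ofIdx (γ : ι) (y : Y) :
    cw P (RootPairing.weylGroup.ofIdx P γ) y = P.coreflection γ y := by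
  unfold cw
  rw [ofIdx_inv]
  rfl

theorem affRefl_mul_self (γ : ι) (n : ℤ) : affRefl P γ n * affRefl P γ n = 1 := by
  apply EW.ext
  · change n • P.coroot γ + cw P (RootPairing.weylGroup.ofIdx P γ) (n • P.coroot γ) = 0
    rw [cw_ofIdx, map_zsmul, RootPairing.coreflection_apply_self, smul_neg, add_neg_cancel]
  · exact ofIdx_mul_self γ

theorem kf_affRefl (b : P.Base) (γ β : ι) (n : ℤ) :
    kf b β (affRefl P γ n) = n * P.pairing β γ - ng b (P.reflectionPerm γ β) := by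
  unfold kf affRefl
  simp only [ofIdx_inv, ofIdx_smul, map_zsmul, smul_eq_mul]
  rfl

variable [Fintype ι]

/-- A simple reflection `s` crosses exactly one wall, the one of a root `κ`, and it is a reflection in `κ`. -/
theorem simple_data {b : P.Base} {s : EW P} (hs : IsSimple b s) :
    ∃ κ, dd b κ s = 1 ∧ (∀ γ, γ ≠ κ → γ ≠ nrt P κ → dd b γ s = 0) ∧
      (∀ γ, s.lin • γ = P.reflectionPerm κ γ) ∧ s * s = 1 := by
  obtain ⟨⟨γ0, n, rfl⟩, hl⟩ := hs
  set s := affRefl P γ0 n with hsdef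
  obtain ⟨κ, hκ⟩ := exists_dd_pos (b := b) (x := s) (by omega)
  have hsum : ∀ γ, γ ≠ κ → (dd b κ s).toNat + (dd b γ s).toNat ≤ 1 := by
    intro γ hne
    rw [← hl, len_eq]
    have : ∑ δ ∈ ({κ, γ} : Finset ι), (dd b δ s).toNat ≤ ∑ δ, (dd b δ s).toNat :=
      Finset.sum_le_sum_of_subset (Finset.subset_univ _)
    rwa [Finset.sum_pair (Ne.symm hne)] at this
  have h1 : dd b κ s = 1 := by
    have : (dd b κ s).toNat ≤ 1 := by
      rw [← hl, len_eq]
      exact Finset.single_le_sum (f := fun δ => (dd b δ s).toNat) (fun _ _ => Nat.zero_le _)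
        (Finset.mem_univ κ)
    omega
  have h2 : ∀ γ, γ ≠ κ → γ ≠ nrt P κ → dd b γ s = 0 := by
    intro γ hγ hγ'
    have a1 := hsum γ hγ
    have a2 := hsum (nrt P γ) (fun h => hγ' (by rw [← h, nrt_nrt]))
    rw [dd_nrt] at a2
    omega
  refine ⟨κ, h1, h2, ?_, affRefl_mul_self γ0 n⟩
  have h3 : dd b γ0 s ≠ 0 := by
    rw [dd, hsdef, kf_affRefl, kf_one, refl_self, ng_nrt]
    have : P.pairing γ0 γ0 = 2 := by simp
    rw [this]
    omega
  have h4 : γ0 = κ ∨ γ0 = nrt P κ := by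
    by_contra hc
    push Not at hc
    exact h3 (h2 γ0 hc.1 hc.2)
  intro γ
  change RootPairing.weylGroup.ofIdx P γ0 • γ = _
  rw [ofIdx_smul]
  rcases h4 with h4 | h4
  · rw [h4]
  · rw [h4, refl_nrt_left]

omit [Fintype ι] in
theorem dd_nrt_simple {b : P.Base} {s : EW P} {κ : ι} (h1 : dd b κ s = 1) :
    dd b (nrt P κ) s = -1 := by rw [dd_nrt, h1]

theorem len_mul_simple_up {b : P.Base} {s : EW P} {κ : ι} (h1 : dd b κ s = 1)
    (h2 : ∀ γ, γ ≠ κ → γ ≠ nrt P κ → dd b γ s = 0) {x : EW P} (h : 0 ≤ dd b (x.lin • κ) x) :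
    len b (x * s) = len b x + len b s := by
  refine len_mul_add fun γ => ?_
  by_cases e1 : x.lin⁻¹ • γ = κ
  · left
    refine ⟨?_, by rw [e1]; omega⟩
    rwa [← e1, smul_inv_smul] at h
  · by_cases e2 : x.lin⁻¹ • γ = nrt P κ
    · right
      refine ⟨?_, by rw [e2, dd_nrt]; omega⟩
      have e3 : γ = nrt P (x.lin • κ) := by rw [← smul_nrt, ← e2, smul_inv_smul]
      rw [e3, dd_nrt]
      omega
    · rw [h2 _ e1 e2]
      rcases le_total 0 (dd b γ x) with h | h
      · exact Or.inl ⟨h, le_refl _⟩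
      · exact Or.inr ⟨h, le_refl _⟩

omit [Fintype ι] in
theorem dd_mul_simple_self {b : P.Base} {s : EW P} {κ : ι} (h1 : dd b κ s = 1) (x : EW P) :
    dd b (x.lin • κ) (x * s) = dd b (x.lin • κ) x + 1 := by
  rw [dd_mul, inv_smul_smul, h1]

theorem len_mul_simple_down {b : P.Base} {s : EW P} (hs : IsSimple b s) {κ : ι} (h1 : dd b κ s = 1)
    (h2 : ∀ γ, γ ≠ κ → γ ≠ nrt P κ → dd b γ s = 0) (h3 : ∀ γ, s.lin • γ = P.reflectionPerm κ γ)
    (h4 : s * s = 1) {x : EW P} (h : dd b (x.lin • κ) x < 0) :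
    len b (x * s) + 1 = len b x := by
  have e1 : (x * s).lin • κ = nrt P (x.lin • κ) := by
    rw [mul_lin, mul_smul, h3, refl_self, smul_nrt]
  have e2 := len_mul_simple_up (x := x * s) h1 h2 (by
    rw [e1, dd_nrt, dd_mul_simple_self h1]; omega)
  rw [mul_assoc, h4, mul_one, hs.2] at e2
  exact e2.symm

omit [Fintype ι] in
theorem dd_inv (b : P.Base) (γ : ι) (y : EW P) : dd b (y.lin⁻¹ • γ) y⁻¹ = -dd b γ y := by
  have := dd_mul b γ y y⁻¹
  rw [mul_inv_cancel, dd_one] at this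
  omega

omit [Fintype ι] in
theorem simple_inv {s : EW P} (h4 : s * s = 1) : s⁻¹ = s := inv_eq_of_mul_eq_one_left h4

theorem len_simple_mul_up {b : P.Base} {s : EW P} {κ : ι} (h1 : dd b κ s = 1)
    (h2 : ∀ γ, γ ≠ κ → γ ≠ nrt P κ → dd b γ s = 0) (h4 : s * s = 1) {y : EW P} (h : dd b κ y ≤ 0) :
    len b (s * y) = len b s + len b y := by
  have e := len_mul_simple_up (x := y⁻¹) h1 h2 (by
    rw [inv_lin, dd_inv]; omega)
  have e2 : (y⁻¹ * s) = (s * y)⁻¹ := by rw [mul_inv_rev, simple_inv h4]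
  rw [e2, len_inv, len_inv] at e
  omega

theorem len_simple_mul_down {b : P.Base} {s : EW P} (hs : IsSimple b s) {κ : ι} (h1 : dd b κ s = 1)
    (h2 : ∀ γ, γ ≠ κ → γ ≠ nrt P κ → dd b γ s = 0) (h3 : ∀ γ, s.lin • γ = P.reflectionPerm κ γ)
    (h4 : s * s = 1) {y : EW P} (h : 0 < dd b κ y) :
    len b (s * y) + 1 = len b y := by
  have e := len_mul_simple_down hs h1 h2 h3 h4 (x := y⁻¹) (by
    rw [inv_lin, dd_inv]; omega)
  have e2 : (y⁻¹ * s) = (s * y)⁻¹ := by rw [mul_inv_rev, simple_inv h4]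
  rw [e2, len_inv, len_inv] at e
  exact e

end Pool.Agent.PPS10
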