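import Pool.Agent.PPS10.Hecke

set_option autoImplicit false

/-!
# PPS10/Sph (MP_6908e7_al, helper10): the spherical module
-/

namespace Pool.Agent.PPS10

open scoped Classical LaurentPolynomial

variable {ι X Y : Type} [Fintype ι] [AddCommGroup X] [AddCommGroup Y] {P : RootPairing ι ℤ X Y}
  {b : P.Base}

/-- `π = Σ_u v^{N - 2 ℓ(u)}`, the symmetric Poincare polynomial of the flag variety. -/
noncomputable def piP (b : P.Base) : ℤ[T;T⁻¹] :=
  ∑ᶠ u : P.weylGroup, (LaurentPolynomial.T (npos b - 2 * len b (fin u : EW P)) : ℤ[T;T⁻¹])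

variable [P.IsReduced] {A : HeckeAlg b}

theorem cW_eq [Fintype P.weylGroup] : cW A = ∑ u : P.weylGroup,
    (LaurentPolynomial.T (npos b - len b (fin u : EW P)) : ℤ[T;T⁻¹]) • A.Ts (fin u) :=
  finsum_eq_sum_of_fintype _

theorem piP_eq [Fintype P.weylGroup] : piP b = ∑ u : P.weylGroup,
    (LaurentPolynomial.T (npos b - 2 * len b (fin u : EW P)) : ℤ[T;T⁻¹]) :=
  finsum_eq_sum_of_fintype _

/-- `π = v^{-N} + π'` with `π'` nonnegative. -/
theorem piP_split (b : P.Base) : ∃ p' : ℤ[T;T⁻¹], NN p' ∧ piP b = LaurentPolynomial.T (-npos b) + p' := by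
  have := finite_weyl b
  let _ := Fintype.ofFinite P.weylGroup
  obtain ⟨w0, hw0⟩ := exists_longest b
  refine ⟨∑ u ∈ Finset.univ.erase w0,
    (LaurentPolynomial.T (npos b - 2 * len b (fin u : EW P)) : ℤ[T;T⁻¹]), ?_, ?_⟩
  · exact NN.sum _ _ fun u _ => NN.T _
  · rw [piP_eq, ← Finset.add_sum_erase _ _ (Finset.mem_univ w0), hw0]
    congr 2
    ring

theorem piP_ne_zero (b : P.Base) : piP b ≠ 0 := by
  obtain ⟨p', h1, h2⟩ := piP_split b
  intro h
  rw [h] at h2
  have h3 := NN.eq_zero_of_add (NN.T _) h1 h2.symm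
  have h4 := congrArg (fun p : ℤ[T;T⁻¹] => p.coeff (-npos b)) h3
  simp at h4

theorem len_fin_le_nat {w0 : P.weylGroup} (hw0 : (len b (fin w0 : EW P) : ℤ) = npos b)
    (u : P.weylGroup) : len b (fin u : EW P) ≤ len b (fin w0 : EW P) := by
  have := len_fin_le b u
  omega

theorem mstd_eq [Fintype P.weylGroup] (lam : Y) : mstd A lam = ∑ u : P.weylGroup,
    (LaurentPolynomial.T (npos b - len b (fin u : EW P)) : ℤ[T;T⁻¹]) •
      A.Ts (xmin b lam * fin u) := by
  rw [mstd, cW_eq, Finset.mul_sum]
  refine Finset.sum_congr rfl fun u _ => ?_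
  rw [mul_smul_comm, A.mul_len]
  exact len_xmin_fin b lam u

theorem mstd_BdH (lam : Y) : BdH A 0 (mstd A lam) := by
  have := finite_weyl b
  let _ := Fintype.ofFinite P.weylGroup
  rw [mstd_eq]
  refine BdH.sum _ _ fun u _ => ?_
  have h1 : Bd 0 (LaurentPolynomial.T (npos b - len b (fin u : EW P)) : ℤ[T;T⁻¹]) := by
    refine Bd.T' ?_
    have := len_fin_le b u
    omega
  exact (BdH.smul h1 (BdH.Ts _)).mono (by norm_num)

theorem mstd_LenLe {w0 : P.weylGroup} (hw0 : (len b (fin w0 : EW P) : ℤ) = npos b) (lam : Y) :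
    LenLe A (dimS b lam + len b (fin w0 : EW P)) (mstd A lam) := by
  have := finite_weyl b
  let _ := Fintype.ofFinite P.weylGroup
  rw [mstd_eq]
  refine LenLe.sum _ _ fun u _ => LenLe.smul _ ((LenLe.Ts _).mono ?_)
  rw [len_xmin_fin]
  have := len_fin_le_nat hw0 u
  omega

theorem repr_mstd {w0 : P.weylGroup} (hw0 : (len b (fin w0 : EW P) : ℤ) = npos b) (lam kap : Y) :
    A.Ts.repr (mstd A lam) (xmin b kap * fin w0) = if lam = kap then 1 else 0 := by
  have := finite_weyl b
  let _ := Fintype.ofFinite P.weylGroup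
  have hx : ∀ (mu : Y) (u : P.weylGroup), xmin b mu * fin u = (⟨mu, wl b mu * u⟩ : EW P) :=
    fun mu u => mk_mul_fin mu _ u
  rw [mstd_eq, map_sum, Finsupp.finset_sum_apply, Finset.sum_eq_single w0]
  · rw [map_smul, Finsupp.smul_apply, A.Ts.repr_self, Finsupp.single_apply, hx, hx]
    by_cases h : lam = kap
    · subst h
      rw [if_pos rfl, if_pos rfl, hw0, sub_self, LaurentPolynomial.T_zero, smul_eq_mul, one_mul]
    · rw [if_neg h, if_neg, smul_zero]
      intro h2
      exact h (congrArg EW.tr h2)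
  · intro u _ hu
    rw [map_smul, Finsupp.smul_apply, A.Ts.repr_self, Finsupp.single_apply, hx, hx, if_neg,
      smul_zero]
    intro h2
    have h3 : lam = kap := congrArg EW.tr h2
    subst h3
    have h4 : wl b lam * u = wl b lam * w0 := congrArg EW.lin h2
    exact hu (mul_left_cancel h4)
  · intro h
    exact absurd (Finset.mem_univ _) h

/-- A left-spherical element is multiplied by `π` under `C`. -/
theorem cW_mul {z : A.H} (hz : ∀ i ∈ b.support,
    A.Ts (affRefl P i 0) * z = (LaurentPolynomial.T (-1) : ℤ[T;T⁻¹]) • z) :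
    cW A * z = piP b • z := by
  have := finite_weyl b
  let _ := Fintype.ofFinite P.weylGroup
  have key : ∀ n : ℕ, ∀ u : P.weylGroup, len b (fin u : EW P) = n →
      A.Ts (fin u) * z = (LaurentPolynomial.T (-(n : ℤ)) : ℤ[T;T⁻¹]) • z := by
    intro n
    induction n with
    | zero =>
      intro u hu
      have : u = 1 := by
        refine eq_one_of_pos b fun i hi => ?_
        have h1 := dd_eq_zero_of_len hu (u • i)
        rw [dd_eq] at h1
        simp only [fin, map_zero, inv_smul_smul,
          ng_of_pos (RootPairing.Base.isPos_of_mem_support hi)] at h1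
        by_contra hc
        rw [ng_of_neg hc] at h1
        omega
      subst this
      have e : (fin 1 : EW P) = 1 := rfl
      rw [e, A.one_eq, one_mul]
      simp
    | succ n ih =>
      intro u hu
      rcases descent_index b (y := (fin u : EW P)) (by omega) with ⟨i, hi, h⟩ | ⟨γ, hγ, _, h⟩
      · obtain ⟨hs, h1⟩ := simple_finite b hi
        obtain ⟨h2, h3, h4⟩ := simple_props hs h1
        have hl := len_simple_mul_down hs h1 h2 h3 h4 h
        have e0 : affRefl P i 0 * fin u = (fin (RootPairing.weylGroup.ofIdx P i * u) : EW P) := by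
          rw [affRefl_zero, fin, mk_mul_fin]; rfl
        have hl' : len b (fin (RootPairing.weylGroup.ofIdx P i * u) : EW P) = n := by
          rw [← e0]; omega
        have e1 : A.Ts (fin u) = A.Ts (affRefl P i 0) *
            A.Ts (fin (RootPairing.weylGroup.ofIdx P i * u)) := by
          rw [A.mul_len]
          · rw [← e0, ← mul_assoc, h4, one_mul]
          · rw [← e0, ← mul_assoc, h4, one_mul, hs.2]
            omega
        rw [e1, mul_assoc, ih _ hl', mul_smul_comm, hz i hi, smul_smul, ← LaurentPolynomial.T_add]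
        congr 2
        push_cast
        ring
      · exfalso
        have := dd_fin b u hγ
        omega
  rw [cW_eq, piP_eq, Finset.sum_mul, Finset.sum_smul]
  refine Finset.sum_congr rfl fun u _ => ?_
  rw [smul_mul_assoc, key _ u rfl, smul_smul, ← LaurentPolynomial.T_add]
  congr 2
  ring

end Pool.Agent.PPS10
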