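import Pool.Agent.PPS10.Parity

set_option autoImplicit false

/-!
# PPS10/Step (MP_6908e7_al, helper10): if `E(S_λ)` and `E(S_ν)` are perverse, `ν` antidominant, then so is
`E(S_{λ + w_λ ν})`
-/

namespace Pool.Agent.PPS10

open scoped Classical LaurentPolynomial

variable {ι X Y : Type} [Fintype ι] [AddCommGroup X] [AddCommGroup Y] {P : RootPairing ι ℤ X Y}
  {b : P.Base} [P.IsReduced] {A : HeckeAlg b}

theorem repr_ch {w0 : P.weylGroup} (hw0 : (len b (fin w0 : EW P) : ℤ) = npos b)
    (h : Y → Y →₀ ℤ[T;T⁻¹]) (lam kap : Y) :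
    A.Ts.repr (ch A h lam) (xmin b kap * fin w0) = h lam kap := by
  rw [ch, Finsupp.sum, map_sum, Finsupp.finset_sum_apply]
  have e : ∀ mu ∈ (h lam).support,
      A.Ts.repr (h lam mu • mstd A mu) (xmin b kap * fin w0) = if mu = kap then h lam mu else 0 := by
    intro mu _
    rw [map_smul, Finsupp.smul_apply, repr_mstd hw0, smul_eq_mul]
    split <;> simp
  rw [Finset.sum_congr rfl e, Finset.sum_ite_eq']
  split
  · rfl
  · rename_i h1
    rw [Finsupp.mem_support_iff, not_not] at h1
    exact h1.symm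

theorem ch_BdH (E : ParitySystem A) {lam : Y} (hp : E.IsPerverse lam) : BdH A 0 (ch A E.h lam) := by
  rw [ch]
  refine BdH.sum _ _ fun kap _ => ?_
  exact (BdH.smul (hp kap) (mstd_BdH kap)).mono (by norm_num)

theorem ch_LenLe (E : ParitySystem A) {w0 : P.weylGroup}
    (hw0 : (len b (fin w0 : EW P) : ℤ) = npos b) (lam : Y) :
    LenLe A (dimS b lam + len b (fin w0 : EW P)) (ch A E.h lam) := by
  rw [ch]
  refine LenLe.sum _ _ fun kap hk => LenLe.smul _ ((mstd_LenLe hw0 kap).mono ?_)
  rcases E.supp lam kap (Finsupp.mem_support_iff.1 hk) with h | h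
  · rw [h]
  · omega

theorem LenLe.repr_eq_zero {n : ℕ} {z : A.H} (hz : LenLe A n z) {x : EW P} (hx : n < len b x) :
    A.Ts.repr z x = 0 := by
  by_contra hc
  have := hz x hc
  omega

/-- The main step. -/
theorem step (E : ParitySystem A) {lam nu : Y} (hnu : Anti b nu) (h1 : E.IsPerverse lam)
    (h2 : E.IsPerverse nu) : E.IsPerverse (lam + cw P (wl b lam) nu) := by
  obtain ⟨w0, hw0⟩ := exists_longest b
  obtain ⟨d, hd, hconv⟩ := E.conv lam nu hnu
  obtain ⟨p', hp', hpi⟩ := piP_split b
  set κ₀ := lam + cw P (wl b lam) nu with hκ₀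
  have hdim : dimS b κ₀ = dimS b lam + dimS b nu := dimS_add lam hnu
  have htop : ∀ kap, len b (xmin b kap * fin w0) = dimS b kap + len b (fin w0 : EW P) :=
    fun kap => len_xmin_fin b kap w0
  -- the coordinates `q` of the product
  set q : Y → ℤ[T;T⁻¹] := fun kap' => ∑ kap ∈ d.support, d kap * E.h kap kap' with hq
  have hQq : ∀ kap', A.Ts.repr (ch A E.h lam * ch A E.h nu) (xmin b kap' * fin w0) = q kap' := by
    intro kap'
    rw [hconv, Finsupp.sum, map_sum, Finsupp.finset_sum_apply]
    refine Finset.sum_congr rfl fun kap _ => ?_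
    rw [map_smul, Finsupp.smul_apply, repr_ch hw0, smul_eq_mul]
  have hNN : ∀ kap kap', NN (d kap * E.h kap kap') := fun kap kap' => (hd kap).mul (E.nonneg _ _)
  -- degree bound
  have hbd : ∀ kap', Bd (npos b) (q kap') := by
    intro kap'
    rw [← hQq]
    exact ((BdH.mul (ch_BdH E h1) (ch_BdH E h2)).mono (by norm_num)) _
  -- the product is `π` times `Q'`
  set Q' : A.H := ∑ kap ∈ (E.h lam).support, E.h lam kap • (A.Ts (xmin b kap) * ch A E.h nu) with hQ'
  have hQQ' : ch A E.h lam * ch A E.h nu = piP b • Q' := by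
    conv_lhs => rw [ch, Finsupp.sum, Finset.sum_mul]
    rw [hQ', Finset.smul_sum]
    refine Finset.sum_congr rfl fun kap _ => ?_
    rw [mstd, smul_mul_assoc, mul_assoc, cW_mul (fun i hi => E.spherical hnu hi),
      mul_smul_comm, smul_comm]
  have hQq' : ∀ kap', q kap' = piP b * A.Ts.repr Q' (xmin b kap' * fin w0) := by
    intro kap'
    rw [← hQq, hQQ', map_smul, Finsupp.smul_apply, smul_eq_mul]
  have hQlen : LenLe A (dimS b κ₀ + len b (fin w0 : EW P)) Q' := by
    rw [hQ']
    refine LenLe.sum _ _ fun kap hk => LenLe.smul _ ?_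
    refine ((LenLe.Ts (xmin b kap)).mul (ch_LenLe E hw0 nu)).mono ?_
    have e : len b (xmin b kap) = dimS b kap := rfl
    rcases E.supp lam kap (Finsupp.mem_support_iff.1 hk) with h | h
    · rw [h] at e ⊢; omega
    · omega
  -- the leading coefficient
  have hlead : A.Ts.repr Q' (xmin b κ₀ * fin w0) = 1 := by
    rw [hQ', map_sum, Finsupp.finset_sum_apply, Finset.sum_eq_single lam]
    · rw [E.diag, one_smul]
      conv_lhs => rw [ch, Finsupp.sum, Finset.mul_sum]
      rw [map_sum, Finsupp.finset_sum_apply, Finset.sum_eq_single nu]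
      · rw [E.diag, one_smul, mstd, ← mul_assoc, A.mul_len]
        · rw [← xmin_add lam hnu]
          change A.Ts.repr (mstd A κ₀) _ = 1
          rw [repr_mstd hw0, if_pos rfl]
        · rw [← xmin_add lam hnu]
          exact hdim
      · intro kap hk hne
        rw [mul_smul_comm]
        have e := (LenLe.Ts (A := A) (xmin b lam)).mul (mstd_LenLe (A := A) hw0 kap)
        refine (LenLe.smul (E.h nu kap) e).repr_eq_zero ?_
        have e2 : len b (xmin b lam) = dimS b lam := rfl
        rcases E.supp nu kap (Finsupp.mem_support_iff.1 hk) with h | h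
        · exact absurd h hne
        · rw [htop, hdim]; omega
      · intro hk
        rw [Finsupp.mem_support_iff, not_not] at hk
        rw [hk, zero_smul, mul_zero, map_zero]; rfl
    · intro kap hk hne
      have e := (LenLe.Ts (A := A) (xmin b kap)).mul (ch_LenLe E hw0 nu)
      refine (LenLe.smul (E.h lam kap) e).repr_eq_zero ?_
      have e2 : len b (xmin b kap) = dimS b kap := rfl
      rcases E.supp lam kap (Finsupp.mem_support_iff.1 hk) with h | h
      · exact absurd h hne
      · rw [htop, hdim]; omega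
    · intro hk
      rw [Finsupp.mem_support_iff, not_not] at hk
      rw [hk, zero_smul, map_zero]; rfl
  have hqlead : q κ₀ = piP b := by rw [hQq', hlead, mul_one]
  -- only `κ₀` contributes to `q κ₀`
  have hzero : ∀ kap ∈ d.support, kap ≠ κ₀ → d kap * E.h kap κ₀ = 0 := by
    intro kap hk hne
    by_contra hc
    have hh : E.h kap κ₀ ≠ 0 := right_ne_zero_of_mul hc
    rcases E.supp kap κ₀ hh with h | h
    · exact hne h.symm
    · have hqk : q kap ≠ 0 := by
        intro h0
        have := NN.eq_zero_of_sum (fun c _ => hNN c kap) h0 hk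
        rw [E.diag, mul_one] at this
        exact (Finsupp.mem_support_iff.1 hk) this
      rw [hQq'] at hqk
      have := hQlen _ (right_ne_zero_of_mul hqk)
      rw [htop] at this
      omega
  have hd1 : κ₀ ∈ d.support ∧ d κ₀ = piP b := by
    by_cases hk : κ₀ ∈ d.support
    · refine ⟨hk, ?_⟩
      have : q κ₀ = d κ₀ * E.h κ₀ κ₀ := Finset.sum_eq_single_of_mem κ₀ hk hzero
      rw [E.diag, mul_one] at this
      rw [← this, hqlead]
    · exfalso
      have : q κ₀ = 0 := Finset.sum_eq_zero fun kap hkap =>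
        hzero kap hkap (fun h => hk (h ▸ hkap))
      rw [hqlead] at this
      exact piP_ne_zero b this
  intro kap
  have := Bd.of_sum (fun c _ => hNN c kap) (hbd kap) hd1.1
  rw [hd1.2] at this
  exact Bd.of_mul hpi hp' (E.nonneg _ _) this

end Pool.Agent.PPS10
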