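import Pool.Agent.PPS10.FinW
import Pool.Agent.PPS10.Pot

set_option autoImplicit false

/-!
# PPS10/Xmin (MP_6908e7_al, helper10): minimal representatives of the cosets `t_λ W_f`, and the longest element
-/

namespace Pool.Agent.PPS10

open scoped Classical

variable {ι X Y : Type} [Fintype ι] [AddCommGroup X] [AddCommGroup Y] {P : RootPairing ι ℤ X Y}

theorem wl_min (b : P.Base) (lam : Y) (w : P.weylGroup) : dimS b lam ≤ len b ⟨lam, w⟩ :=
  Classical.choose_spec (exists_argmin fun w : P.weylGroup => len b ⟨lam, w⟩) w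

omit [Fintype ι] in
theorem affRefl_zero (i : ι) : affRefl P i 0 = fin (RootPairing.weylGroup.ofIdx P i) := by
  simp [affRefl, fin]

omit [Fintype ι] in
theorem mk_mul_fin (lam : Y) (w u : P.weylGroup) :
    (⟨lam, w⟩ : EW P) * fin u = ⟨lam, w * u⟩ := by
  apply EW.ext
  · simp [fin]
  · rfl

omit [Fintype ι] in
theorem dd_eq (b : P.Base) (γ : ι) (x : EW P) :
    dd b γ x = P.toLinearMap (P.root γ) x.tr - ng b (x.lin⁻¹ • γ) + ng b γ := by
  rw [dd, kf_one, kf]
  ring

omit [Fintype ι] in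
theorem ng_add_le (b : P.Base) {γ β β' : ι} (h : P.root γ = P.root β + P.root β') :
    ng b γ ≤ ng b β + ng b β' := by
  have h2 := b.height_add h
  rcases ng_cases b γ with ⟨p1, e1⟩ | ⟨p1, e1⟩ <;>
  rcases ng_cases b β with ⟨p2, e2⟩ | ⟨p2, e2⟩ <;>
  rcases ng_cases b β' with ⟨p3, e3⟩ | ⟨p3, e3⟩ <;>
  rw [e1, e2, e3] <;> rw [isPos_iff_height] at p1 p2 p3 <;> omega

variable [P.IsReduced]

private theorem wl_ineq_simple (b : P.Base) (lam : Y) {i : ι} (hi : i ∈ b.support) :
    P.toLinearMap (P.root (wl b lam • i)) lam ≤ -ng b (wl b lam • i) := by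
  obtain ⟨hs, h1⟩ := simple_finite b hi
  obtain ⟨h2, h3, h4⟩ := simple_props hs h1
  have c : ¬ dd b ((xmin b lam).lin • nrt P i) (xmin b lam) < 0 := by
    intro hc
    have e := len_mul_simple_down hs h1 h2 h3 h4 hc
    rw [affRefl_zero, xmin, mk_mul_fin] at e
    have := wl_min b lam (wl b lam * RootPairing.weylGroup.ofIdx P i)
    have e2 : dimS b lam = len b (⟨lam, wl b lam⟩ : EW P) := rfl
    omega
  rw [smul_nrt, dd_nrt, dd_eq] at c
  simp only [xmin, inv_smul_smul, ng_of_pos (RootPairing.Base.isPos_of_mem_support hi)] at c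
  omega

theorem wl_ineq (b : P.Base) (lam : Y) {β : ι} (hβ : b.IsPos β) :
    P.toLinearMap (P.root (wl b lam • β)) lam ≤ -ng b (wl b lam • β) := by
  refine hβ.induction_on_add
    (p := fun β => P.toLinearMap (P.root (wl b lam • β)) lam ≤ -ng b (wl b lam • β))
    (fun i hi => wl_ineq_simple b lam hi) ?_
  intro i j k hk hi hj
  have hj' := wl_ineq_simple b lam hj
  have hr := root_smul_lin (wl b lam) (γ := k) (γ' := i) (κ := j) (m := 1) (by rw [hk, one_smul])
  rw [one_smul] at hr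
  have h2 := ng_add_le b hr
  rw [hr, map_add, LinearMap.add_apply]
  omega

theorem wl_spec (b : P.Base) (lam : Y) {γ : ι} (hγ : b.IsPos γ) :
    ¬ b.IsPos ((wl b lam)⁻¹ • γ) ↔ 0 < P.toLinearMap (P.root γ) lam := by
  constructor
  · intro h
    have h1 : b.IsPos (nrt P ((wl b lam)⁻¹ • γ)) := by rwa [isPos_nrt]
    have h2 := wl_ineq b lam h1
    rw [← smul_nrt, smul_inv_smul, root_nrt, map_neg, LinearMap.neg_apply, ng_nrt,
      ng_of_pos hγ] at h2
    omega
  · intro h hc
    have h2 := wl_ineq b lam hc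
    rw [smul_inv_smul, ng_of_pos hγ] at h2
    omega

theorem wl_unique (b : P.Base) (lam : Y) {w : P.weylGroup}
    (hw : ∀ γ, b.IsPos γ → (¬ b.IsPos (w⁻¹ • γ) ↔ 0 < P.toLinearMap (P.root γ) lam)) :
    w = wl b lam := by
  have key : ∀ γ : ι, b.IsPos (w⁻¹ • γ) ↔ b.IsPos ((wl b lam)⁻¹ • γ) := by
    intro γ
    by_cases hγ : b.IsPos γ
    · rw [← not_iff_not, hw γ hγ, wl_spec b lam hγ]
    · have hγ' : b.IsPos (nrt P γ) := by rwa [isPos_nrt]
      have h1 := hw _ hγ'
      have h2 := wl_spec b lam hγ'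
      rw [smul_nrt, isPos_nrt, not_not] at h1 h2
      rw [h1, h2]
  have : (wl b lam)⁻¹ * w = 1 := eq_one_of_pos b fun i hi => by
    rw [mul_smul, ← key, inv_smul_smul]
    exact RootPairing.Base.isPos_of_mem_support hi
  rw [inv_mul_eq_one] at this
  exact this.symm

theorem dd_xmin (b : P.Base) (lam : Y) {δ : ι} (hδ : b.IsPos δ) :
    dd b (wl b lam • δ) (xmin b lam) ≤ 0 := by
  have := wl_ineq b lam hδ
  rw [dd_eq]
  simp only [xmin, inv_smul_smul, ng_of_pos hδ]
  omega

theorem len_xmin_mul (b : P.Base) (lam : Y) {y : EW P} (hy : ∀ δ, b.IsPos δ → dd b δ y ≤ 0) :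
    len b (xmin b lam * y) = dimS b lam + len b y := by
  refine len_mul_add fun γ => ?_
  change (0 ≤ dd b γ (xmin b lam) ∧ 0 ≤ dd b ((wl b lam)⁻¹ • γ) y) ∨
    (dd b γ (xmin b lam) ≤ 0 ∧ dd b ((wl b lam)⁻¹ • γ) y ≤ 0)
  by_cases c : b.IsPos ((wl b lam)⁻¹ • γ)
  · right
    have h1 := dd_xmin b lam c
    rw [smul_inv_smul] at h1
    exact ⟨h1, hy _ c⟩
  · left
    have c' : b.IsPos (nrt P ((wl b lam)⁻¹ • γ)) := by rwa [isPos_nrt]
    have h1 := dd_xmin b lam c'
    have h2 := hy _ c'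
    rw [smul_nrt, smul_inv_smul] at h1
    rw [dd_nrt] at h1 h2
    omega

omit [Fintype ι] [P.IsReduced] in
theorem dd_fin (b : P.Base) (u : P.weylGroup) {δ : ι} (hδ : b.IsPos δ) : dd b δ (fin u) ≤ 0 := by
  rw [dd_eq, ng_of_pos hδ]
  rcases ng_cases b ((fin u).lin⁻¹ • δ) with ⟨_, e⟩ | ⟨_, e⟩ <;> rw [e] <;> simp [fin]

theorem len_xmin_fin (b : P.Base) (lam : Y) (u : P.weylGroup) :
    len b (xmin b lam * fin u) = dimS b lam + len b (fin u) :=
  len_xmin_mul b lam fun _ hδ => dd_fin b u hδ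

theorem anti_pos {b : P.Base} {nu : Y} (h : Anti b nu) {γ : ι} (hγ : b.IsPos γ) :
    P.toLinearMap (P.root γ) nu ≤ 0 := by
  refine hγ.induction_on_add (p := fun γ => P.toLinearMap (P.root γ) nu ≤ 0) h ?_
  intro i j k hk hi hj
  have := h j hj
  rw [hk, map_add, LinearMap.add_apply]
  omega

theorem wl_anti {b : P.Base} {nu : Y} (h : Anti b nu) : wl b nu = 1 := by
  refine (wl_unique b nu fun γ hγ => ?_).symm
  have := anti_pos h hγ
  constructor
  · intro h2
    rw [inv_one, one_smul] at h2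
    exact absurd hγ h2
  · intro h2
    omega

theorem xmin_anti {b : P.Base} {nu : Y} (h : Anti b nu) : xmin b nu = ⟨nu, 1⟩ := by
  rw [xmin, wl_anti h]

theorem wl_add {b : P.Base} (lam : Y) {nu : Y} (h : Anti b nu) :
    wl b (lam + cw P (wl b lam) nu) = wl b lam := by
  refine (wl_unique b _ fun γ hγ => ?_).symm
  rw [map_add, pair_root_cw]
  have h1 := wl_spec b lam hγ
  constructor
  · intro h2
    have h3 := h1.1 h2
    have h4 : b.IsPos (nrt P ((wl b lam)⁻¹ • γ)) := by rwa [isPos_nrt]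
    have h5 := anti_pos h h4
    rw [root_nrt, map_neg, LinearMap.neg_apply] at h5
    omega
  · intro h2 h3
    have h5 := anti_pos h h3
    have h6 := mt h1.2 (not_not.mpr h3)
    omega

theorem xmin_add {b : P.Base} (lam : Y) {nu : Y} (h : Anti b nu) :
    xmin b (lam + cw P (wl b lam) nu) = xmin b lam * xmin b nu := by
  rw [xmin_anti h, xmin, xmin, wl_add lam h]
  apply EW.ext
  · rfl
  · simp

theorem dimS_add {b : P.Base} (lam : Y) {nu : Y} (h : Anti b nu) :
    dimS b (lam + cw P (wl b lam) nu) = dimS b lam + dimS b nu := by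
  rw [dimS, xmin_add lam h]
  refine len_xmin_mul b lam fun δ hδ => ?_
  rw [xmin_anti h, dd_eq]
  have := anti_pos h hδ
  simp only [inv_one, one_smul]
  omega

/-- The element of the finite Weyl group which sends every positive root to a negative root. -/
theorem exists_w0 (b : P.Base) : ∃ w0 : P.weylGroup, ∀ γ, b.IsPos γ → ¬ b.IsPos (w0 • γ) := by
  have : Finite P.weylGroup := finite_weyl b
  obtain ⟨u, hu⟩ := Finite.exists_max (fun u : P.weylGroup => len b (fin u : EW P))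
  refine ⟨u, fun γ hγ => ?_⟩
  have hs : ∀ i ∈ b.support, ¬ b.IsPos (u • i) := by
    intro i hi hc
    obtain ⟨hs, h1⟩ := simple_finite b hi
    obtain ⟨h2, h3, h4⟩ := simple_props hs h1
    have e := len_mul_simple_up (x := (fin u : EW P)) h1 h2 (by
      rw [dd_eq]
      simp only [fin, inv_smul_smul, smul_nrt, ng_nrt, ng_of_pos hc, map_zero,
        ng_of_pos (RootPairing.Base.isPos_of_mem_support hi)]
      omega)
    rw [affRefl_zero, fin, mk_mul_fin] at e
    have h5 := hu (u * RootPairing.weylGroup.ofIdx P i)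
    have h6 : len b (affRefl P i 0) = 1 := hs.2
    rw [affRefl_zero] at h6
    simp only [fin] at h5 e h6
    omega
  refine hγ.induction_on_add (p := fun γ => ¬ b.IsPos (u • γ)) hs ?_
  intro i j k hk hi hj
  have hj' := hs j hj
  have hr := root_smul_lin u (γ := k) (γ' := i) (κ := j) (m := 1) (by rw [hk, one_smul])
  rw [one_smul] at hr
  have h2 := b.height_add hr
  rw [isPos_iff_height] at hi hj' ⊢
  omega

omit [P.IsReduced] in
theorem len_fin (b : P.Base) (u : P.weylGroup) :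
    (len b (fin u : EW P) : ℤ) = ∑ δ : ι, if b.IsPos δ then ng b (u⁻¹ • δ) else 0 := by
  rw [len]
  push_cast
  refine Finset.sum_congr rfl fun δ _ => ?_
  by_cases h : b.IsPos δ
  · rw [if_pos h, if_pos h]
    have : kf b δ (fin u : EW P) = -ng b (u⁻¹ • δ) := by simp [kf, fin]
    rw [this]
    rcases ng_cases b (u⁻¹ • δ) with ⟨_, e⟩ | ⟨_, e⟩ <;> rw [e] <;> simp
  · rw [if_neg h, if_neg h]

omit [P.IsReduced] in
theorem len_fin_le (b : P.Base) (u : P.weylGroup) : (len b (fin u : EW P) : ℤ) ≤ npos b := by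
  rw [len_fin, npos]
  refine Finset.sum_le_sum fun δ _ => ?_
  by_cases h : b.IsPos δ
  · rw [if_pos h, if_pos h]
    rcases ng_cases b (u⁻¹ • δ) with ⟨_, e⟩ | ⟨_, e⟩ <;> rw [e] <;> norm_num
  · rw [if_neg h, if_neg h]

theorem exists_longest (b : P.Base) : ∃ w0 : P.weylGroup, (len b (fin w0 : EW P) : ℤ) = npos b := by
  obtain ⟨w, hw⟩ := exists_w0 b
  refine ⟨w⁻¹, ?_⟩
  rw [len_fin, npos]
  refine Finset.sum_congr rfl fun δ _ => ?_
  by_cases h : b.IsPos δ
  · rw [if_pos h, if_pos h, inv_inv, ng_of_neg (hw δ h)]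
  · rw [if_neg h, if_neg h]

end Pool.Agent.PPS10
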